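import Pool.Agent.H342VG.Marker

/-!
# From twisted 3-cycles to the whole group of a base set
-/

set_option autoImplicit false

namespace Pool.Agent.H342VG

open Pool.Agent.Helper106.VG Filter Topology

/-- the homeomorphisms supported in `F` -/
def Supp (F : Set Cn) : Subgroup Hm where
  carrier := {g | ∀ x, x ∉ F → g x = x}
  mul_mem' := by
    intro g h hg hh x hx
    rw [mul_ap, hh x hx, hg x hx]
  one_mem' := fun _ _ => rfl
  inv_mem' := by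
    intro g hg x hx
    have := hg x hx
    calc g⁻¹ x = g⁻¹ (g x) := by rw [this]
      _ = x := inv_ap_ap g x

theorem mem_Supp {F : Set Cn} {g : Hm} : g ∈ Supp F ↔ ∀ x, x ∉ F → g x = x := Iff.rfl

theorem Supp_maps {F : Set Cn} {g : Hm} (hg : g ∈ Supp F) {x : Cn} (hx : x ∈ F) : g x ∈ F := by
  by_contra hn
  have h1 := hg _ hn
  have h2 : g x = x := g.injective h1
  exact hn (by rw [h2]; exact hx)

theorem Supp_image {F : Set Cn} {g : Hm} (hg : g ∈ Supp F) : g '' F = F := by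
  apply Set.Subset.antisymm
  · rintro _ ⟨x, hx, rfl⟩
    exact Supp_maps hg hx
  · intro x hx
    exact ⟨g⁻¹ x, Supp_maps ((Supp F).inv_mem hg) hx, ap_inv_ap g x⟩

/-- homeomorphisms with disjoint supports commute -/
theorem commute_of_disj {A B : Set Cn} (hAB : Disjoint A B) {s t : Hm} (hs : s ∈ Supp A)
    (ht : t ∈ Supp B) : Commute s t := by
  refine Homeomorph.ext fun x => ?_
  show s (t x) = t (s x)
  by_cases hx : x ∈ A
  · have h1 : x ∉ B := Set.disjoint_left.1 hAB hx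
    have h2 : s x ∉ B := Set.disjoint_left.1 hAB (Supp_maps hs hx)
    rw [ht x h1, ht _ h2]
  · rw [hs x hx]
    by_cases hxB : x ∈ B
    · exact hs _ (Set.disjoint_right.1 hAB (Supp_maps ht hxB))
    · rw [ht x hxB, hs x hx]

/-- conjugation by a power of `τ` -/
def Cj (τ : Hm) (b : ℤ) : Hm →* Hm := (MulAut.conj (τ ^ b)).toMonoidHom

theorem Cj_def (τ : Hm) (b : ℤ) (g : Hm) : Cj τ b g = τ ^ b * g * (τ ^ b)⁻¹ := rfl

theorem Cj_ap (τ : Hm) (b : ℤ) (g : Hm) (z : Cn) : Cj τ b g ((τ ^ b : Hm) z) = (τ ^ b : Hm) (g z) := by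
  rw [Cj_def, mul_ap, mul_ap, inv_ap_ap]

theorem Cj_supp {τ : Hm} {b : ℤ} {g : Hm} {F : Set Cn} (hg : g ∈ Supp F) :
    Cj τ b g ∈ Supp (Tr τ F b) := by
  intro x hx
  have h1 : (τ ^ b : Hm)⁻¹ x ∉ F := by
    intro h
    apply hx
    rw [mem_Tr, zpow_neg]
    exact h
  rw [Cj_def, mul_ap, mul_ap, hg _ h1, ap_inv_ap]

theorem Cj_Cj (τ : Hm) (a b : ℤ) (g : Hm) : Cj τ a (Cj τ b g) = Cj τ (a + b) g := by
  rw [Cj_def, Cj_def, Cj_def, zpow_add]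
  group

theorem Cj_mem {H : Subgroup Hm} {τ : Hm} (hτ : τ ∈ H) (b : ℤ) {g : Hm} (hg : g ∈ H) :
    Cj τ b g ∈ H :=
  H.mul_mem (H.mul_mem (H.zpow_mem hτ b) hg) (H.inv_mem (H.zpow_mem hτ b))

theorem mem_of_Cj {H : Subgroup Hm} {τ : Hm} (hτ : τ ∈ H) (b : ℤ) {g : Hm} (hg : Cj τ b g ∈ H) :
    g ∈ H := by
  have := Cj_mem hτ (-b) hg
  rwa [Cj_Cj, neg_add_cancel, Cj_def, zpow_zero, one_mul, inv_one, mul_one] at this

theorem cm_mem {H : Subgroup Hm} {s t : Hm} (hs : s ∈ H) (ht : t ∈ H) : cm s t ∈ H :=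
  H.mul_mem (H.mul_mem (H.mul_mem hs ht) (H.inv_mem hs)) (H.inv_mem ht)

/-- the comparison of two 3-cycles with a common first part -/
theorem twist (hcomm : C_comm) {F : Set Cn} {τ : Hm} {b1 b2 : ℤ} {φ c1 c c4 : Hm}
    (hφ : φ ∈ Supp F)
    (hc1 : ∀ z ∈ F, c1 z = (τ ^ b1 : Hm) z) (hc : ∀ z ∈ F, c z = (τ ^ b2 : Hm) (φ z))
    (hc4 : ∀ z ∈ F, c4 z = (τ ^ b2 : Hm) z)
    (hs : ∀ w, w ∉ F → c1 w = w ∨ c w = w) (hs4 : ∀ w, w ∉ F → c1 w = w ∨ c4 w = w)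
    (d1 : Disjoint F (Tr τ F b1)) (d2 : Disjoint F (Tr τ F b2))
    (d12 : Disjoint (Tr τ F b1) (Tr τ F b2)) :
    cm c1 c = cm c1 c4 * (Cj τ b1 φ * Cj τ b2 φ⁻¹) := by
  have i1 : c1 '' F = Tr τ F b1 := Set.image_congr fun z hz => hc1 z hz
  have i4 : c4 '' F = Tr τ F b2 := Set.image_congr fun z hz => hc4 z hz
  have i2 : c '' F = Tr τ F b2 := by
    apply Set.Subset.antisymm
    · rintro _ ⟨z, hz, rfl⟩
      rw [hc z hz]
      exact ⟨_, Supp_maps hφ hz, rfl⟩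
    · rintro _ ⟨z, hz, rfl⟩
      refine ⟨φ⁻¹ z, Supp_maps ((Supp F).inv_mem hφ) hz, ?_⟩
      rw [hc _ (Supp_maps ((Supp F).inv_mem hφ) hz), ap_inv_ap]
  obtain ⟨k1, k2, k3, k4⟩ := hcomm F c1 c hs (by rwa [i1]) (by rwa [i2])
  obtain ⟨l1, l2, l3, l4⟩ := hcomm F c1 c4 hs4 (by rwa [i1]) (by rwa [i4])
  rw [i1, i2] at k4
  rw [i1, i4] at l4
  have s1 := Cj_supp (τ := τ) (b := b1) hφ
  have s2 := Cj_supp (τ := τ) (b := b2) ((Supp F).inv_mem hφ)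
  refine Homeomorph.ext fun w => ?_
  show cm c1 c w = cm c1 c4 (Cj τ b1 φ (Cj τ b2 φ⁻¹ w))
  by_cases hw : w ∈ F
  · rw [s2 w (Set.disjoint_left.1 d2 hw), s1 w (Set.disjoint_left.1 d1 hw), k1 w hw, l1 w hw]
  by_cases hw1 : w ∈ Tr τ F b1
  · rw [s2 w (Set.disjoint_left.1 d12 hw1)]
    obtain ⟨z, hz, rfl⟩ := hw1
    rw [Cj_ap, ← hc1 z hz, ← hc1 _ (Supp_maps hφ hz), k2 z hz, l2 _ (Supp_maps hφ hz), hc z hz,
      hc4 _ (Supp_maps hφ hz)]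
  by_cases hw2 : w ∈ Tr τ F b2
  · obtain ⟨v, hv, rfl⟩ := hw2
    have hv' := Supp_maps ((Supp F).inv_mem hφ) hv
    change cm c1 c ((τ ^ b2 : Hm) v) = cm c1 c4 (Cj τ b1 φ (Cj τ b2 φ⁻¹ ((τ ^ b2 : Hm) v)))
    rw [Cj_ap, s1 _ (Set.disjoint_right.1 d12 ⟨_, hv', rfl⟩), ← hc4 _ hv', l3 _ hv']
    have : (τ ^ b2 : Hm) v = c (φ⁻¹ v) := by
      rw [hc _ hv', ap_inv_ap]
    rw [this, k3 _ hv']
  · rw [s2 w hw2, s1 w hw1, k4 w hw hw1 hw2, l4 w hw hw1 hw2]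

/-- the main step: four elements of `H` give all of `Alt G F` -/
theorem core {G : Subgroup Hm} (hv : Vigorous G) (hs : IsSimpleGroup G) (hperf : C_perf)
    (hcomm : C_comm) {F : Set Cn} (hF : IsClopen F) {x y : Hm} (hx : x ∈ Supp F)
    (hy : y ∈ Supp F) (hxy : Alt G F ≤ Subgroup.closure {x, y}) {H : Subgroup Hm} {τ : Hm}
    (hτ : τ ∈ H) {b1 b2 : ℤ} {c1 c2 c3 c4 : Hm} (m1 : c1 ∈ H) (m2 : c2 ∈ H) (m3 : c3 ∈ H)
    (m4 : c4 ∈ H)
    (hc1 : ∀ z ∈ F, c1 z = (τ ^ b1 : Hm) z) (hc2 : ∀ z ∈ F, c2 z = (τ ^ b2 : Hm) (x z))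
    (hc3 : ∀ z ∈ F, c3 z = (τ ^ b2 : Hm) (y z)) (hc4 : ∀ z ∈ F, c4 z = (τ ^ b2 : Hm) z)
    (hs2 : ∀ w, w ∉ F → c1 w = w ∨ c2 w = w) (hs3 : ∀ w, w ∉ F → c1 w = w ∨ c3 w = w)
    (hs4 : ∀ w, w ∉ F → c1 w = w ∨ c4 w = w)
    (d1 : Disjoint F (Tr τ F b1)) (d2 : Disjoint F (Tr τ F b2))
    (d12 : Disjoint (Tr τ F b1) (Tr τ F b2))
    (d13 : Disjoint (Tr τ F b1) (Tr τ F (2 * b1 - b2)))
    (d23 : Disjoint (Tr τ F b2) (Tr τ F (2 * b1 - b2))) : Alt G F ≤ H := by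
  -- the two basic elements
  have X : Cj τ b1 x * Cj τ b2 x⁻¹ ∈ H := by
    have e := twist hcomm hx hc1 hc2 hc4 hs2 hs4 d1 d2 d12
    have : Cj τ b1 x * Cj τ b2 x⁻¹ = (cm c1 c4)⁻¹ * cm c1 c2 := by
      rw [e, inv_mul_cancel_left]
    rw [this]
    exact H.mul_mem (H.inv_mem (cm_mem m1 m4)) (cm_mem m1 m2)
  have Y : Cj τ b1 y * Cj τ b2 y⁻¹ ∈ H := by
    have e := twist hcomm hy hc1 hc3 hc4 hs3 hs4 d1 d2 d12
    have : Cj τ b1 y * Cj τ b2 y⁻¹ = (cm c1 c4)⁻¹ * cm c1 c3 := by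
      rw [e, inv_mul_cancel_left]
    rw [this]
    exact H.mul_mem (H.inv_mem (cm_mem m1 m4)) (cm_mem m1 m3)
  have Y' : Cj τ b1 y * Cj τ (2 * b1 - b2) y⁻¹ ∈ H := by
    have h1 := Cj_mem hτ (b1 - b2) (H.inv_mem Y)
    have h2 : Cj τ (b1 - b2) (Cj τ b1 y * Cj τ b2 y⁻¹)⁻¹ =
        Cj τ b1 y * Cj τ (2 * b1 - b2) y⁻¹ := by
      rw [mul_inv_rev, map_mul, ← map_inv (Cj τ b1), ← map_inv (Cj τ b2), inv_inv, Cj_Cj, Cj_Cj]
      congr 2
      · ring_nf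
      · ring_nf
    rwa [h2] at h1
  -- the product homomorphism
  have comm23 : ∀ (m n : Supp F), Commute (((Cj τ b2).comp (Supp F).subtype) m)
      (((Cj τ (2 * b1 - b2)).comp (Supp F).subtype) n) := fun m n =>
    commute_of_disj d23 (Cj_supp m.2) (Cj_supp n.2)
  have comm1 : ∀ (m : Supp F) (n : Supp F × Supp F),
      Commute (((Cj τ b1).comp (Supp F).subtype) m)
        (MonoidHom.noncommCoprod _ _ comm23 n) := by
    intro m n
    rw [MonoidHom.noncommCoprod_apply]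
    exact (commute_of_disj d12 (Cj_supp m.2) (Cj_supp n.1.2)).mul_right
      (commute_of_disj d13 (Cj_supp m.2) (Cj_supp n.2.2))
  set Φ : Supp F × Supp F × Supp F →* Hm := MonoidHom.noncommCoprod _ _ comm1 with hΦ
  have hΦap : ∀ p q r : Supp F, Φ (p, q, r) =
      Cj τ b1 p * (Cj τ b2 q * Cj τ (2 * b1 - b2) r) := fun p q r => by
    rw [hΦ, MonoidHom.noncommCoprod_apply, MonoidHom.noncommCoprod_apply]
    rfl
  set x' : Supp F := ⟨x, hx⟩ with hx'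
  set y' : Supp F := ⟨y, hy⟩ with hy'
  have hcl : Subgroup.closure {x, y} ≤ Supp F := by
    rw [Subgroup.closure_le]
    rintro w (rfl | rfl)
    · exact hx
    · exact hy
  have main : ∀ p ∈ Subgroup.closure {x, y}, ∃ p' : Supp F, (p' : Hm) = p ∧
      ∃ q ∈ Subgroup.zpowers x', ∃ r ∈ Subgroup.zpowers y', Φ (p', q, r) ∈ H := by
    intro p hp
    induction hp using Subgroup.closure_induction with
    | mem w hw =>
      rcases hw with rfl | rfl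
      · refine ⟨x', rfl, x'⁻¹, (Subgroup.zpowers x').inv_mem (Subgroup.mem_zpowers _), 1,
          Subgroup.one_mem _, ?_⟩
        rw [hΦap]
        have : Cj τ b1 (x' : Hm) * (Cj τ b2 ((x'⁻¹ : Supp F) : Hm) *
            Cj τ (2 * b1 - b2) ((1 : Supp F) : Hm)) = Cj τ b1 w * Cj τ b2 w⁻¹ := by
          rw [Subgroup.coe_one, map_one, mul_one, Subgroup.coe_inv]
        rw [this]
        exact X
      · refine ⟨y', rfl, 1, Subgroup.one_mem _, y'⁻¹,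
          (Subgroup.zpowers y').inv_mem (Subgroup.mem_zpowers _), ?_⟩
        rw [hΦap]
        have : Cj τ b1 (y' : Hm) * (Cj τ b2 ((1 : Supp F) : Hm) *
            Cj τ (2 * b1 - b2) ((y'⁻¹ : Supp F) : Hm)) =
            Cj τ b1 w * Cj τ (2 * b1 - b2) w⁻¹ := by
          rw [Subgroup.coe_one, map_one, one_mul, Subgroup.coe_inv]
        rw [this]
        exact Y'
    | one =>
      refine ⟨1, rfl, 1, Subgroup.one_mem _, 1, Subgroup.one_mem _, ?_⟩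
      have : Φ ((1 : Supp F), (1 : Supp F), (1 : Supp F)) = 1 := map_one Φ
      rw [this]
      exact H.one_mem
    | mul p₁ p₂ _ _ h₁ h₂ =>
      obtain ⟨p', rfl, q, hq, r, hr, h⟩ := h₁
      obtain ⟨p'', rfl, q', hq', r', hr', h'⟩ := h₂
      refine ⟨p' * p'', rfl, q * q', Subgroup.mul_mem _ hq hq', r * r',
        Subgroup.mul_mem _ hr hr', ?_⟩
      have : Φ (p' * p'', q * q', r * r') = Φ (p', q, r) * Φ (p'', q', r') := by
        rw [← map_mul]; rfl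
      rw [this]
      exact H.mul_mem h h'
    | inv p _ h =>
      obtain ⟨p', rfl, q, hq, r, hr, h⟩ := h
      refine ⟨p'⁻¹, rfl, q⁻¹, Subgroup.inv_mem _ hq, r⁻¹, Subgroup.inv_mem _ hr, ?_⟩
      have : Φ (p'⁻¹, q⁻¹, r⁻¹) = (Φ (p', q, r))⁻¹ := by
        rw [← map_inv]; rfl
      rw [this]
      exact H.inv_mem h
  -- commutators
  refine (hperf G hv hs F hF).trans ?_
  rw [Subgroup.closure_le]
  rintro _ ⟨s, hsF, t, htF, rfl⟩
  obtain ⟨p, hp, q, hq, r, hr, h⟩ := main s (hxy (Subgroup.subset_closure hsF))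
  obtain ⟨p', hp', q', hq', r', hr', h'⟩ := main t (hxy (Subgroup.subset_closure htF))
  have hqq : q * q' * q⁻¹ * q'⁻¹ = 1 := by
    obtain ⟨a, rfl⟩ := hq
    obtain ⟨a', rfl⟩ := hq'
    simp only
    group
  have hrr : r * r' * r⁻¹ * r'⁻¹ = 1 := by
    obtain ⟨a, rfl⟩ := hr
    obtain ⟨a', rfl⟩ := hr'
    simp only
    group
  have key : Φ (p, q, r) * Φ (p', q', r') * (Φ (p, q, r))⁻¹ * (Φ (p', q', r'))⁻¹ =
      Cj τ b1 (cm s t) := by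
    rw [← map_inv, ← map_inv, ← map_mul, ← map_mul, ← map_mul]
    have : ((p, q, r) * (p', q', r') * (p, q, r)⁻¹ * (p', q', r')⁻¹ : Supp F × Supp F × Supp F) =
        (p * p' * p⁻¹ * p'⁻¹, q * q' * q⁻¹ * q'⁻¹, r * r' * r⁻¹ * r'⁻¹) := rfl
    rw [this, hqq, hrr, hΦap, Subgroup.coe_one, map_one, map_one, mul_one, mul_one, ← hp, ← hp']
    rfl
  have hmem : Cj τ b1 (cm s t) ∈ H := by
    rw [← key]
    exact H.mul_mem (H.mul_mem (H.mul_mem h h') (H.inv_mem h)) (H.inv_mem h')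
  exact mem_of_Cj hτ b1 hmem

end Pool.Agent.H342VG
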