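import Pool.Agent.H342VG.Place

/-!
# Strong infinite uniform spread of finitely generated simple vigorous groups
-/

set_option autoImplicit false

namespace Pool.Agent.H342VG

open Pool.Agent.Helper106.VG Filter Topology

/-- `σ` is a witness for strong infinite uniform spread: for every `k ≥ 1` and all nontrivial
`α_1, …, α_k` some conjugate `β` of `σ` satisfies `⟨α_i, β⟩ = G` for every `i`. -/
def Witness {G : Type} [Group G] (σ : G) : Prop :=
  ∀ k : ℕ, 1 ≤ k → ∀ α : Fin k → G, (∀ i, α i ≠ 1) →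
    ∃ β : G, IsConj σ β ∧ ∀ i, Subgroup.closure {α i, β} = ⊤

/-- `G` has strong infinite uniform spread: there is a single element `σ` such that for every
`k ≥ 1` and all nontrivial `α_1, …, α_k` some conjugate `β` of `σ` satisfies `⟨α_i, β⟩ = G` for
every `i`. -/
def StrongSpread (G : Type) [Group G] : Prop := ∃ σ : G, Witness σ

/-- the table of indices -/
def tbl (p : Fin 6 × Bool) : ℤ :=
  if p.2 then ![4, 10, 21, 22, 34, 46] p.1 else ![7, 9, 11, 19, 31, 43] p.1

theorem tbl_inj : ∀ p q : Fin 6 × Bool, tbl p = tbl q → p = q := by decide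

theorem tbl_mem : ∀ p : Fin 6 × Bool, tbl p ∈ AA := by decide

theorem tbl_surj : ∀ a ∈ AA, ∃ p : Fin 6 × Bool, tbl p = a := by decide

/-- an element without finite orbits has no periodic points -/
theorem aper {g : Hm} (h : ∀ x : Cn, (Set.range fun n : ℤ => (g ^ n : Hm) x).Infinite) (x : Cn)
    (n : ℤ) (hn : n ≠ 0) : (g ^ n : Hm) x ≠ x := by
  intro he
  apply h x
  refine ((Set.finite_Ico (0 : ℤ) |n|).image fun m : ℤ => (g ^ m : Hm) x).subset ?_
  rintro _ ⟨m, rfl⟩
  refine ⟨m % n, ⟨Int.emod_nonneg m hn, Int.emod_lt_abs m hn⟩, ?_⟩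
  have hfix : ∀ q : ℤ, ((g ^ n) ^ q : Hm) x = x := by
    have h2 : (g ^ n : Hm) ∈ Supp ({x}ᶜ : Set Cn) := by
      intro y hy
      have : y = x := by simpa using hy
      rw [this, he]
    intro q
    exact (Supp ({x}ᶜ : Set Cn)).zpow_mem h2 q x (by simp)
  have h3 : (g ^ m : Hm) = g ^ (m % n) * (g ^ n) ^ (m / n) := by
    rw [← zpow_mul, ← zpow_add]
    congr 1
    exact (Int.emod_add_mul_ediv m n).symm
  change (g ^ (m % n) : Hm) x = (g ^ m : Hm) x
  rw [h3, mul_ap, hfix]

/-- from a base set to the whole space -/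
theorem spread_all (hconj : C_conj) (hunion : C_union) (htop : C_top) {G : Subgroup Hm}
    (hv : Vigorous G) (hs : IsSimpleGroup G) {g : Hm} (hg : g ∈ G) {B : Set Cn} (hB : IsClopen B)
    {N : ℤ} (hcov : ∀ x, ∃ n : ℤ, |n| ≤ N ∧ x ∈ Tr g B n) {H : Subgroup Hm} (hgH : g ∈ H)
    (hH : Alt G (B ∪ Tr g B 1) ≤ H) : G ≤ H := by
  set F : Set Cn := B ∪ Tr g B 1 with hF
  have hFcl : IsClopen F := hB.union (Tr_clop hB 1)
  have hBne : B.Nonempty := by
    obtain ⟨n, -, z, hz, -⟩ := hcov fun _ => false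
    exact ⟨z, hz⟩
  have htr : ∀ n : ℤ, Alt G (Tr g F n) ≤ H := by
    intro n t ht
    have h1 := hconj G (Tr g F n) ((g ^ n : Hm)⁻¹) t (G.inv_mem (G.zpow_mem hg n)) ht
    have h2 : (((g ^ n : Hm)⁻¹ : Hm) '' Tr g F n) = F := by
      rw [Tr, ← Set.image_comp]
      have h3 : (⇑((g ^ n : Hm)⁻¹) ∘ ⇑(g ^ n : Hm) : Cn → Cn) = id :=
        funext fun y => inv_ap_ap _ y
      rw [h3, Set.image_id]
    rw [h2] at h1
    have h4 := hH h1
    have h5 : (g ^ n : Hm) * ((g ^ n : Hm)⁻¹ * t * ((g ^ n : Hm)⁻¹)⁻¹) * (g ^ n : Hm)⁻¹ = t := by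
      group
    rw [← h5]
    exact H.mul_mem (H.mul_mem (H.zpow_mem hgH n) h4) (H.inv_mem (H.zpow_mem hgH n))
  have main : ∀ m : ℕ, Alt G (⋃ n ∈ Finset.range (m + 1), Tr g F (n : ℤ)) ≤ H := by
    intro m
    induction m with
    | zero =>
      have : (⋃ n ∈ Finset.range (0 + 1), Tr g F (n : ℤ)) = Tr g F 0 := by simp
      rw [this]
      exact htr 0
    | succ m ih =>
      rw [Finset.range_add_one, Finset.set_biUnion_insert, Set.union_comm]
      refine (hunion G hv hs _ _ ?_ (Tr_clop hFcl _) ?_).trans (sup_le ih (htr _))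
      · exact (Finset.finite_toSet _).isClopen_biUnion fun n _ => Tr_clop hFcl _
      · obtain ⟨b, hb⟩ := hBne
        refine ⟨(g ^ ((m : ℤ) + 1) : Hm) b, ?_, ?_⟩
        · rw [Set.mem_iUnion₂]
          refine ⟨m, by simp, ?_⟩
          rw [zpow_ap_Tr]
          have : (m : ℤ) - (m + 1) = -1 := by ring
          rw [this, mem_Tr, neg_neg]
          exact Or.inr ⟨b, hb, rfl⟩
        · push_cast
          exact ⟨b, Or.inl hb, rfl⟩
  have huniv : (⋃ n ∈ Finset.range ((2 * N).toNat + 1), Tr g F (n : ℤ)) = Set.univ := by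
    rw [Set.eq_univ_iff_forall]
    intro x
    obtain ⟨n, hn, hx⟩ := hcov ((g ^ (-N) : Hm) x)
    rw [zpow_ap_Tr] at hx
    have h1 := abs_le.1 hn
    have h2 : n - -N = (((n + N).toNat : ℕ) : ℤ) := by
      rw [Int.toNat_of_nonneg (by linarith)]
      ring
    rw [h2] at hx
    rw [Set.mem_iUnion₂]
    refine ⟨(n + N).toNat, ?_, ?_⟩
    · rw [Finset.mem_range]
      omega
    · rw [mem_Tr] at hx ⊢
      exact Or.inl hx
  have h := main (2 * N).toNat
  rw [huniv, htop G hv hs] at h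
  exact h

theorem Alt_mono {G : Subgroup Hm} {A B : Set Cn} (h : A ⊆ B) : Alt G A ≤ Alt G B := by
  apply Subgroup.closure_mono
  rintro t ⟨D, e, h1, h2, h3⟩
  exact ⟨D, e, h1, h2, fun i hi => (h3 i hi).trans h⟩

/-- The main theorem: any element without finite orbits is a witness. -/
theorem strong_spread (hA : A_room) (hBs : B_small) (htop : C_top) (hext : C_ext) (hsupp : C_supp)
    (hconj : C_conj) (hunion : C_union) (hperf : C_perf) (hcomm : C_comm) (htwo : D_two)
    (hcompress : C_compress) {G : Subgroup Hm} (hv : Vigorous G) (hs : IsSimpleGroup G)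
    (hf : Group.FG G) {g : Hm} (hg : g ∈ G)
    (hinf : ∀ x : Cn, (Set.range fun n : ℤ => (g ^ n : Hm) x).Infinite) :
    Witness (⟨g, hg⟩ : G) := by
  intro k _ α hα
  -- the marker set
  set N : ℤ := 1000 ^ k * 1000 with hN
  have hNpos : 0 < N := by positivity
  obtain ⟨B, hB, hBd, hBc⟩ := marker g (aper hinf) (2 * N + 1) (by linarith)
  set F : Set Cn := B ∪ Tr g B 1 with hF
  have hFcl : IsClopen F := hB.union (Tr_clop hB 1)
  have hBne : B.Nonempty := by
    obtain ⟨n, -, z, hz, -⟩ := hBc fun _ => false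
    exact ⟨z, hz⟩
  have hFne : F.Nonempty := hBne.mono Set.subset_union_left
  set τ : Hm := g ^ (2 : ℤ) with hτ
  have hτG : τ ∈ G := G.zpow_mem hg 2
  have hFmem : ∀ y ∈ F, ∃ a : ℤ, (a = 0 ∨ a = 1) ∧ y ∈ Tr g B a := by
    rintro y (hy | hy)
    · exact ⟨0, Or.inl rfl, by rwa [Tr_zero]⟩
    · exact ⟨1, Or.inr rfl, hy⟩
  have hdis : ∀ n : ℤ, n ≠ 0 → |n| ≤ N → Disjoint F (Tr τ F n) := by
    intro n hn0 hn
    rw [Set.disjoint_left]
    intro y hy hy'
    rw [mem_Tr] at hy'
    obtain ⟨a, ha, hya⟩ := hFmem y hy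
    obtain ⟨b, hb, hyb⟩ := hFmem _ hy'
    have h1 : (τ ^ (-n) : Hm) = g ^ (2 * -n) := by rw [hτ, ← zpow_mul]
    rw [h1, zpow_ap_Tr] at hyb
    have h2 := abs_le.1 hn
    refine Set.disjoint_left.1 (Tr_disj hBd (m := a) (n := b - 2 * -n) ?_ ?_) hya hyb
    · rcases ha with rfl | rfl <;> rcases hb with rfl | rfl <;> omega
    · rw [abs_le]
      rcases ha with rfl | rfl <;> rcases hb with rfl | rfl <;> constructor <;> linarith
  -- two generators
  obtain ⟨M, -, hM⟩ := htwo G hv hs hf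
  obtain ⟨h, hh1, hh2, hh3⟩ := hcompress G hv (2 * M + 1) F hFcl hFne
  obtain ⟨x, hx, y, hy, -, -, -, hxy⟩ := hM F (2 * M + 1) h ⟨M, rfl⟩ (by omega)
    { clF := hFcl
      loc := fun a ha => (hh1 a ha).1
      inj := fun a ha => (hh1 a ha).2.1
      sub := fun a ha => (hh1 a ha).2.2
      disj := hh2
      rest := hh3 }
  have hxS : x ∈ Supp F := fun z hz => hsupp G F x hx z hz
  have hyS : y ∈ Supp F := fun z hz => hsupp G F y hy z hz
  have hAG : Alt G F ≤ G := (Alt_mono (Set.subset_univ F)).trans (htop G hv hs).le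
  -- the placement
  set idx : (Fin k × Fin 6) × Bool → ℤ := fun p => 1000 ^ (p.1.1 : ℕ) * tbl (p.1.2, p.2) with hidx
  set φ : Fin k × Fin 6 → Hm := fun p => if p.2 = 3 then x else if p.2 = 4 then y else 1 with hφ
  have hφG : ∀ p, φ p ∈ G := by
    intro p
    simp only [hφ]
    split_ifs
    · exact hAG hx
    · exact hAG hy
    · exact G.one_mem
  have hφF : ∀ p, φ p ∈ Supp F := by
    intro p
    simp only [hφ]
    split_ifs
    · exact hxS
    · exact hyS
    · exact (Supp F).one_mem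
  have hidxS : ∀ p, idx p ∈ Spec k := fun p => Spec_mem p.1.1.2 (tbl_mem _)
  have hSidx : ∀ s ∈ Spec k, ∃ p, idx p = s := by
    rintro _ ⟨i, hi, a, ha, rfl⟩
    obtain ⟨p, rfl⟩ := tbl_surj a ha
    exact ⟨((⟨i, hi⟩, p.1), p.2), rfl⟩
  have hd : ∀ a b, a ≠ b → Disjoint (Tr τ F (idx a)) (Tr τ F (idx b)) := by
    intro a b hab
    refine Tr_disj hdis ?_ ?_
    · intro he
      obtain ⟨h1, h2⟩ := idx_inj (tbl_mem _) (tbl_mem _) he
      have h3 := tbl_inj _ _ h2
      apply hab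
      have h4 : a.1.1 = b.1.1 := Fin.ext h1
      have h5 : a.1.2 = b.1.2 := (Prod.mk.inj h3).1
      have h6 : a.2 = b.2 := (Prod.mk.inj h3).2
      exact Prod.ext (Prod.ext h4 h5) h6
    · have h1 := Spec_pos (hidxS a)
      have h2 := Spec_pos (hidxS b)
      rw [abs_le]
      constructor <;> linarith
  have hdF : ∀ a, Disjoint F (Tr τ F (idx a)) := by
    intro a
    have h1 := Spec_pos (hidxS a)
    refine hdis _ h1.1.ne' ?_
    rw [abs_of_pos h1.1]
    linarith
  obtain ⟨γ, hγ, hpl⟩ := place hA hBs htop hext hv hs (fun i => (α i : Hm)) (fun i => (α i).2)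
    (fun i h => hα i (Subtype.ext h)) hτG hFcl hFne (Fin k × Fin 6) Prod.fst idx φ hφG hφF hd hdF
  refine ⟨⟨γ * g * γ⁻¹, G.mul_mem (G.mul_mem hγ hg) (G.inv_mem hγ)⟩, ?_, fun i => ?_⟩
  · rw [isConj_iff]
    exact ⟨⟨γ, hγ⟩, Subtype.ext rfl⟩
  · set α' : Hm := γ⁻¹ * (α i : Hm) * γ with hα'
    obtain ⟨hown, htype⟩ := hpl i
    have hOwn : Own τ α' x y F (1000 ^ (i : ℕ)) := by
      constructor
      · intro z hz
        exact hown (i, 0) rfl z hz
      · intro z hz
        exact hown (i, 1) rfl z hz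
      · intro z hz
        exact hown (i, 2) rfl z hz
      · intro z hz
        exact hown (i, 3) rfl z hz
      · intro z hz
        exact hown (i, 4) rfl z hz
      · intro z hz
        exact hown (i, 5) rfl z hz
    have hle : G ≤ Subgroup.closure {α', g} := by
      have hgH : g ∈ Subgroup.closure {α', g} := Subgroup.subset_closure (by simp)
      have hαH : α' ∈ Subgroup.closure {α', g} := Subgroup.subset_closure (by simp)
      have hτH : τ ∈ Subgroup.closure {α', g} := Subgroup.zpow_mem _ hgH 2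
      refine spread_all hconj hunion htop hv hs hg hB hBc hgH ?_
      rcases htype with ⟨hA1, hA2⟩ | hB1
      · refine typeA hv hs hperf hcomm hFcl hxS hyS hxy i.2 le_rfl hdis hOwn ?_ ?_ hτH hαH
        · intro w hw hw'
          exact hA1 w hw fun a => hw' _ (hidxS a)
        · intro s hs'
          obtain ⟨a, rfl⟩ := hSidx s hs'
          rcases hA2 a with h1 | ⟨b, h1⟩
          · exact Or.inl h1
          · exact Or.inr ⟨_, hidxS b, h1⟩
      · refine typeB hv hs hperf hcomm hFcl hxS hyS hxy i.2 le_rfl hdis hOwn ?_ hτH hαH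
        intro w hw hw'
        exact hB1 w hw fun a => hw' _ (hidxS a)
    set L : Subgroup Hm := Subgroup.closure {(α i : Hm), γ * g * γ⁻¹} with hL
    have hle2 : Subgroup.closure {α', g} ≤ L.comap (MulAut.conj γ).toMonoidHom := by
      rw [Subgroup.closure_le]
      rintro x (rfl | rfl)
      · change γ * α' * γ⁻¹ ∈ L
        have : γ * α' * γ⁻¹ = (α i : Hm) := by rw [hα']; group
        rw [this]
        exact Subgroup.subset_closure (by simp)
      · exact Subgroup.subset_closure (by simp)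
    have hGL : G ≤ L := by
      intro w hw
      have h3 : γ⁻¹ * w * γ ∈ G := G.mul_mem (G.mul_mem (G.inv_mem hγ) hw) hγ
      have h4 : γ * (γ⁻¹ * w * γ) * γ⁻¹ ∈ L := hle2 (hle h3)
      have h5 : γ * (γ⁻¹ * w * γ) * γ⁻¹ = w := by group
      rwa [h5] at h4
    rw [eq_top_iff]
    rintro ⟨w, hw⟩ -
    have h6 : w ∈ (Subgroup.closure {α i, (⟨γ * g * γ⁻¹, G.mul_mem (G.mul_mem hγ hg)
        (G.inv_mem hγ)⟩ : G)}).map G.subtype := by
      rw [MonoidHom.map_closure]
      have : (G.subtype '' {α i, (⟨γ * g * γ⁻¹, G.mul_mem (G.mul_mem hγ hg)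
        (G.inv_mem hγ)⟩ : G)}) = {(α i : Hm), γ * g * γ⁻¹} := by
        simp [Set.image_pair]
      rw [this]
      exact hGL hw
    obtain ⟨v, hv', hvw⟩ := h6
    have : v = ⟨w, hw⟩ := Subtype.ext hvw
    rwa [this] at hv'

end Pool.Agent.H342VG
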