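import Mathlib

/-!
# Index bookkeeping for the placement of pieces

The indices of the special pieces of the `i`-th element are `1000 ^ i * a`, `a ∈ AA`.
-/

set_option autoImplicit false

namespace Pool.Agent.H342VG

/-- the basic indices -/
def AA : Finset ℤ := {7, 4, 9, 10, 11, 21, 19, 22, 31, 34, 43, 46}

/-- all special indices -/
def Spec (k : ℕ) : Set ℤ := {n | ∃ i < k, ∃ a ∈ AA, n = 1000 ^ i * a}

theorem kpos (i : ℕ) : (0 : ℤ) < 1000 ^ i := by positivity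

theorem two_dig {i l : ℕ} {u v : ℤ} (hu : |u| < 1000) (hv : |v| < 1000) (hil : i ≠ l)
    (h : (1000 : ℤ) ^ i * u = 1000 ^ l * v) : u = 0 ∧ v = 0 := by
  have key : ∀ (i l : ℕ) (u v : ℤ), |u| < 1000 → i < l → (1000 : ℤ) ^ i * u = 1000 ^ l * v →
      u = 0 ∧ v = 0 := by
    intro i l u v hu hil h
    obtain ⟨m, rfl⟩ := Nat.exists_eq_add_of_lt hil
    have h1 : (1000 : ℤ) ^ i * u = 1000 ^ i * (1000 * (1000 ^ m * v)) := by
      rw [h]; ring
    have h2 : u = 1000 * (1000 ^ m * v) := mul_left_cancel₀ (kpos i).ne' h1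
    have h3 : u = 0 := Int.eq_zero_of_abs_lt_dvd ⟨_, h2⟩ hu
    refine ⟨h3, ?_⟩
    rw [h3] at h2
    have := kpos m
    rcases mul_eq_zero.1 h2.symm with h4 | h4
    · norm_num at h4
    · exact (mul_eq_zero.1 h4).resolve_left this.ne'
  rcases lt_or_gt_of_ne hil with h1 | h1
  · exact key i l u v hu h1 h
  · exact (key l i v u hv h1 h.symm).symm

/-- the main lemma on digits -/
theorem dig {i j l : ℕ} {a c δ : ℤ} (ha : |a| ≤ 100) (hc : |c| ≤ 100) (hδ : |δ| ≤ 100)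
    (hδ0 : δ ≠ 0) (h : (1000 : ℤ) ^ j * a - 1000 ^ l * c = 1000 ^ i * δ) :
    ∃ a' c' : ℤ, (1000 : ℤ) ^ j * a = 1000 ^ i * a' ∧ (1000 : ℤ) ^ l * c = 1000 ^ i * c' ∧
      a' - c' = δ ∧ (a' = a ∨ a' = 0) ∧ (c' = c ∨ c' = 0) := by
  have h200 : ∀ x y : ℤ, |x| ≤ 100 → |y| ≤ 100 → |x - y| < 1000 := by
    intro x y hx hy
    rw [abs_le] at hx hy
    rw [abs_lt]
    constructor <;> linarith
  have h201 : ∀ x : ℤ, |x| ≤ 100 → |x| < 1000 := fun x hx => by linarith
  by_cases hj : j = i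
  · subst hj
    by_cases hl : l = j
    · subst hl
      refine ⟨a, c, rfl, rfl, ?_, Or.inl rfl, Or.inl rfl⟩
      rw [← mul_sub] at h
      exact mul_left_cancel₀ (kpos l).ne' h
    · have h1 : (1000 : ℤ) ^ j * (a - δ) = 1000 ^ l * c := by rw [mul_sub]; linarith
      obtain ⟨h2, h3⟩ := two_dig (h200 a δ ha hδ) (h201 c hc) (Ne.symm hl) h1
      refine ⟨a, 0, rfl, by rw [h3]; ring, by linarith, Or.inl rfl, Or.inr rfl⟩
  · by_cases hl : l = i
    · subst hl
      have h1 : (1000 : ℤ) ^ j * a = 1000 ^ l * (c - (-δ)) := by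
        rw [mul_sub]; linarith
      obtain ⟨h2, h3⟩ := two_dig (h201 a ha) (h200 c (-δ) hc (by rwa [abs_neg])) hj h1
      refine ⟨0, c, by rw [h2]; ring, rfl, by linarith, Or.inr rfl, Or.inl rfl⟩
    · exfalso
      by_cases hjl : j = l
      · subst hjl
        have h1 : (1000 : ℤ) ^ j * (a - c) = 1000 ^ i * δ := by rw [mul_sub]; exact h
        exact hδ0 (two_dig (h200 a c ha hc) (h201 δ hδ) hj h1).2
      · -- three different exponents
        have hdiv : ∀ (m n : ℕ), m < n → ∀ x : ℤ, ∃ y : ℤ, (1000 : ℤ) ^ n * x = 1000 ^ m * (1000 * y) := by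
          intro m n hmn x
          obtain ⟨e, rfl⟩ := Nat.exists_eq_add_of_lt hmn
          exact ⟨1000 ^ e * x, by ring⟩
        rcases lt_trichotomy j l with h1 | h1 | h1
        · rcases lt_trichotomy j i with h2 | h2 | h2
          · obtain ⟨y, hy⟩ := hdiv j l h1 c
            obtain ⟨z, hz⟩ := hdiv j i h2 δ
            have h3 : (1000 : ℤ) ^ j * a = 1000 ^ j * (1000 * (y + z)) := by
              have : (1000 : ℤ) ^ j * a = 1000 ^ l * c + 1000 ^ i * δ := by linarith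
              rw [this, hy, hz]; ring
            have h4 : a = 0 := Int.eq_zero_of_abs_lt_dvd ⟨_, mul_left_cancel₀ (kpos j).ne' h3⟩
              (h201 a ha)
            subst h4
            have h5 : (1000 : ℤ) ^ l * (-c) = 1000 ^ i * δ := by linarith
            exact hδ0 (two_dig (h201 (-c) (by rwa [abs_neg])) (h201 δ hδ) hl h5).2
          · exact hj h2
          · obtain ⟨y, hy⟩ := hdiv i j h2 a
            obtain ⟨z, hz⟩ := hdiv i l (h2.trans h1) c
            have h3 : (1000 : ℤ) ^ i * δ = 1000 ^ i * (1000 * (y - z)) := by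
              rw [← h, hy, hz]; ring
            exact hδ0 (Int.eq_zero_of_abs_lt_dvd ⟨_, mul_left_cancel₀ (kpos i).ne' h3⟩ (h201 δ hδ))
        · exact hjl h1
        · rcases lt_trichotomy l i with h2 | h2 | h2
          · obtain ⟨y, hy⟩ := hdiv l j h1 a
            obtain ⟨z, hz⟩ := hdiv l i h2 δ
            have h3 : (1000 : ℤ) ^ l * c = 1000 ^ l * (1000 * (y - z)) := by
              have : (1000 : ℤ) ^ l * c = 1000 ^ j * a - 1000 ^ i * δ := by linarith
              rw [this, hy, hz]; ring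
            have h4 : c = 0 := Int.eq_zero_of_abs_lt_dvd ⟨_, mul_left_cancel₀ (kpos l).ne' h3⟩
              (h201 c hc)
            subst h4
            have h5 : (1000 : ℤ) ^ j * a = 1000 ^ i * δ := by linarith
            exact hδ0 (two_dig (h201 a ha) (h201 δ hδ) hj h5).2
          · exact hl h2
          · obtain ⟨y, hy⟩ := hdiv i j (h2.trans h1) a
            obtain ⟨z, hz⟩ := hdiv i l h2 c
            have h3 : (1000 : ℤ) ^ i * δ = 1000 ^ i * (1000 * (y - z)) := by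
              rw [← h, hy, hz]; ring
            exact hδ0 (Int.eq_zero_of_abs_lt_dvd ⟨_, mul_left_cancel₀ (kpos i).ne' h3⟩ (h201 δ hδ))

/-- the sets of indices of the form: a special index, zero, or `1000 ^ i * e` with `e ∈ E` -/
def DD (k i : ℕ) (E : Finset ℤ) : Set ℤ :=
  {n | n ∈ Spec k ∨ n = 0 ∨ ∃ e ∈ E, n = 1000 ^ i * e}

theorem DD_rep {k i : ℕ} {E : Finset ℤ} (hE : ∀ e ∈ E, |e| ≤ 100) {n : ℤ} (hn : n ∈ DD k i E) :
    ∃ (j : ℕ) (a : ℤ), |a| ≤ 100 ∧ n = 1000 ^ j * a ∧ (a ∈ insert 0 AA ∨ (j = i ∧ a ∈ E)) := by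
  rcases hn with ⟨j, -, a, ha, rfl⟩ | rfl | ⟨e, he, rfl⟩
  · refine ⟨j, a, ?_, rfl, Or.inl (Finset.mem_insert_of_mem ha)⟩
    revert a
    decide
  · exact ⟨0, 0, by norm_num, by norm_num, Or.inl (Finset.mem_insert_self _ _)⟩
  · exact ⟨i, e, hE e he, rfl, Or.inr ⟨rfl, he⟩⟩

/-- differences of indices -/
theorem DD_diff {k i : ℕ} {E E' : Finset ℤ} (hE : ∀ e ∈ E, |e| ≤ 100) (hE' : ∀ e ∈ E', |e| ≤ 100)
    {u v δ : ℤ} (hu : u ∈ DD k i E) (hv : v ∈ DD k i E') (hδ : |δ| ≤ 100) (hδ0 : δ ≠ 0)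
    (h : u - v = 1000 ^ i * δ) :
    ∃ a ∈ insert 0 AA ∪ E, ∃ c ∈ insert 0 AA ∪ E', u = 1000 ^ i * a ∧ v = 1000 ^ i * c ∧
      a - c = δ := by
  obtain ⟨j, a, ha, rfl, ha'⟩ := DD_rep hE hu
  obtain ⟨l, c, hc, rfl, hc'⟩ := DD_rep hE' hv
  obtain ⟨a', c', h1, h2, h3, h4, h5⟩ := dig ha hc hδ hδ0 h
  have h0 : (0 : ℤ) ∈ insert 0 AA := Finset.mem_insert_self _ _
  refine ⟨a', ?_, c', ?_, h1, h2, h3⟩
  · rcases h4 with rfl | rfl
    · rcases ha' with h | ⟨-, h⟩
      · exact Finset.mem_union_left _ h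
      · exact Finset.mem_union_right _ h
    · exact Finset.mem_union_left _ h0
  · rcases h5 with rfl | rfl
    · rcases hc' with h | ⟨-, h⟩
      · exact Finset.mem_union_left _ h
      · exact Finset.mem_union_right _ h
    · exact Finset.mem_union_left _ h0

/-- special indices are positive and bounded -/
theorem Spec_pos {k : ℕ} {n : ℤ} (hn : n ∈ Spec k) : 0 < n ∧ n ≤ 1000 ^ k * 100 := by
  obtain ⟨i, hi, a, ha, rfl⟩ := hn
  have h1 : 0 < a ∧ a ≤ 100 := by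
    revert a
    decide
  have h2 := kpos i
  refine ⟨mul_pos h2 h1.1, ?_⟩
  exact mul_le_mul (pow_le_pow_right₀ (by norm_num) hi.le) h1.2 h1.1.le (by positivity)

theorem DD_bd {k i : ℕ} (hi : i < k) {E : Finset ℤ} (hE : ∀ e ∈ E, |e| ≤ 100) {n : ℤ}
    (hn : n ∈ DD k i E) : |n| ≤ 1000 ^ k * 100 := by
  rcases hn with hn | rfl | ⟨e, he, rfl⟩
  · have := Spec_pos hn
    rw [abs_of_pos this.1]
    exact this.2
  · rw [abs_zero]; positivity
  · rw [abs_mul, abs_of_pos (kpos i)]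
    exact mul_le_mul (pow_le_pow_right₀ (by norm_num) hi.le) (hE e he) (abs_nonneg _)
      (by positivity)

/-- different special indices -/
theorem idx_inj {i j : ℕ} {a c : ℤ} (ha : a ∈ AA) (hc : c ∈ AA)
    (h : (1000 : ℤ) ^ i * a = 1000 ^ j * c) : i = j ∧ a = c := by
  have hb : ∀ a ∈ AA, |a| < 1000 ∧ a ≠ 0 := by decide
  by_cases hij : i = j
  · subst hij
    exact ⟨rfl, mul_left_cancel₀ (kpos i).ne' h⟩
  · exact absurd (two_dig (hb a ha).1 (hb c hc).1 hij h).1 (hb a ha).2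

/-- scaled element of `AA` is special -/
theorem Spec_mem {k i : ℕ} (hi : i < k) {a : ℤ} (ha : a ∈ AA) : (1000 : ℤ) ^ i * a ∈ Spec k :=
  ⟨i, hi, a, ha, rfl⟩

/-- condition (A1): sums with `p` -/
theorem idx_sum {k i : ℕ} {p s : ℤ} (hp : |p| ≤ 100) (hp0 : p ≠ 0) (hs : s ∈ Spec k)
    (h : 1000 ^ i * p + s ∈ Spec k ∨ 1000 ^ i * p + s = 0) :
    ∃ a ∈ insert 0 AA, ∃ c ∈ AA, s = 1000 ^ i * c ∧ 1000 ^ i * p + s = 1000 ^ i * a ∧
      a - c = p := by
  have h1 : 1000 ^ i * p + s ∈ DD k i ∅ := by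
    rcases h with h | h
    · exact Or.inl h
    · exact Or.inr (Or.inl h)
  obtain ⟨a, ha, c, hc, h2, h3, h4⟩ := DD_diff (E := ∅) (E' := ∅) (by simp) (by simp) h1
    (show s ∈ DD k i ∅ from Or.inl hs) hp hp0 (by ring)
  rw [Finset.union_empty] at ha hc
  refine ⟨a, ha, c, ?_, h3, h2, h4⟩
  rcases Finset.mem_insert.1 hc with rfl | hc
  · exfalso
    have := (Spec_pos hs).1
    rw [h3] at this
    simp at this
  · exact hc

/-- condition (A2): the indices `1000 ^ i * e`, `e ∉ insert 0 AA`, are not special -/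
theorem idx_not {k i : ℕ} {e : ℤ} (he : |e| ≤ 100) (he' : e ∉ insert 0 AA) :
    (1000 : ℤ) ^ i * e ∉ Spec k ∧ (1000 : ℤ) ^ i * e ≠ 0 := by
  have he0 : e ≠ 0 := fun h => he' (by rw [h]; exact Finset.mem_insert_self _ _)
  refine ⟨fun h => ?_, mul_ne_zero (kpos i).ne' he0⟩
  obtain ⟨a, ha, c, hc, h1, h2, h3⟩ := DD_diff (E := ∅) (E' := ∅) (by simp) (by simp)
    (show (1000 : ℤ) ^ i * e ∈ DD k i ∅ from Or.inl h)
    (show (0 : ℤ) ∈ DD k i ∅ from Or.inr (Or.inl rfl)) he he0 (by ring)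
  rw [Finset.union_empty] at ha
  have h4 : c = 0 := by
    have := h2.symm
    rcases mul_eq_zero.1 this with h | h
    · exact absurd h (kpos i).ne'
    · exact h
  rw [h4, sub_zero] at h3
  exact he' (h3 ▸ ha)

end Pool.Agent.H342VG
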