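import Pool.Agent.Helper106.VG.E3

/-!
# Marker sets for homeomorphisms without finite orbits
-/

set_option autoImplicit false

namespace Pool.Agent.H342VG

open Pool.Agent.Helper106.VG Filter Topology

theorem mul_ap (g h : Hm) (x : Cn) : (g * h) x = g (h x) := rfl

theorem one_ap (x : Cn) : (1 : Hm) x = x := rfl

theorem inv_ap_ap (g : Hm) (x : Cn) : g⁻¹ (g x) = x := by
  rw [← mul_ap, inv_mul_cancel, one_ap]

theorem ap_inv_ap (g : Hm) (x : Cn) : g (g⁻¹ x) = x := by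
  rw [← mul_ap, mul_inv_cancel, one_ap]

theorem clop_im (g : Hm) {A : Set Cn} (hA : IsClopen A) : IsClopen (g '' A) :=
  ⟨g.isClosed_image.2 hA.1, g.isOpen_image.2 hA.2⟩

/-- the translate `τ ^ n (F)` -/
def Tr (τ : Hm) (F : Set Cn) (n : ℤ) : Set Cn := (τ ^ n : Hm) '' F

theorem mem_Tr {τ : Hm} {F : Set Cn} {n : ℤ} {y : Cn} :
    y ∈ Tr τ F n ↔ (τ ^ (-n) : Hm) y ∈ F := by
  constructor
  · rintro ⟨z, hz, rfl⟩
    rw [← mul_ap, ← zpow_add, neg_add_cancel, zpow_zero, one_ap]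
    exact hz
  · intro h
    refine ⟨_, h, ?_⟩
    rw [← mul_ap, ← zpow_add, add_neg_cancel, zpow_zero, one_ap]

theorem Tr_clop {τ : Hm} {F : Set Cn} (hF : IsClopen F) (n : ℤ) : IsClopen (Tr τ F n) :=
  clop_im _ hF

theorem zpow_ap_Tr {τ : Hm} {F : Set Cn} {n m : ℤ} {y : Cn} :
    (τ ^ m : Hm) y ∈ Tr τ F n ↔ y ∈ Tr τ F (n - m) := by
  rw [mem_Tr, mem_Tr, ← mul_ap, ← zpow_add]
  have : -n + m = -(n - m) := by ring
  rw [this]

theorem Tr_zero {τ : Hm} {F : Set Cn} : Tr τ F 0 = F := by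
  rw [Tr, zpow_zero]
  exact Set.image_id F

/-- the greedy construction -/
theorem marker_aux {ι : Type} (σ : Hm) (N : ℤ) (hN : 0 ≤ N) (U : ι → Set Cn)
    (hU : ∀ j, IsClopen (U j))
    (hd : ∀ j, ∀ n : ℤ, n ≠ 0 → |n| ≤ N → Disjoint (U j) (Tr σ (U j) n)) (t : Finset ι) :
    ∃ B : Set Cn, IsClopen B ∧ (∀ n : ℤ, n ≠ 0 → |n| ≤ N → Disjoint B (Tr σ B n)) ∧
      ∀ j ∈ t, ∀ x ∈ U j, ∃ n : ℤ, |n| ≤ N ∧ x ∈ Tr σ B n := by
  classical
  induction t using Finset.induction_on with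
  | empty =>
    refine ⟨∅, isClopen_empty, fun n _ _ => Set.empty_disjoint _, fun j hj => ?_⟩
    exact absurd hj (Finset.notMem_empty j)
  | insert m t _ ih =>
    obtain ⟨B, hB, hBd, hBc⟩ := ih
    -- the part already covered
    set C : Set Cn := ⋃ n ∈ Set.Icc (-N) N, Tr σ B n with hC
    have hCcl : IsClopen C :=
      (Set.finite_Icc (-N) N).isClopen_biUnion fun n _ => Tr_clop hB n
    have hmem : ∀ x, x ∈ C ↔ ∃ n : ℤ, |n| ≤ N ∧ x ∈ Tr σ B n := by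
      intro x
      rw [hC, Set.mem_iUnion₂]
      constructor
      · rintro ⟨n, hn, hx⟩
        exact ⟨n, abs_le.2 hn, hx⟩
      · rintro ⟨n, hn, hx⟩
        exact ⟨n, abs_le.1 hn, hx⟩
    refine ⟨B ∪ (U m \ C), hB.union ((hU m).diff hCcl), ?_, ?_⟩
    · intro n hn0 hn
      rw [Set.disjoint_left]
      intro x hx hx'
      rw [mem_Tr] at hx'
      have hn' : |-n| ≤ N := by rwa [abs_neg]
      rcases hx with hx | hx
      · rcases hx' with hx' | hx'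
        · exact Set.disjoint_left.1 (hBd n hn0 hn) hx (mem_Tr.2 hx')
        · apply hx'.2
          rw [hmem]
          refine ⟨-n, hn', ?_⟩
          rw [mem_Tr, neg_neg, ← mul_ap, ← zpow_add, add_neg_cancel, zpow_zero, one_ap]
          exact hx
      · rcases hx' with hx' | hx'
        · apply hx.2
          rw [hmem]
          exact ⟨n, hn, mem_Tr.2 hx'⟩
        · exact Set.disjoint_left.1 (hd m n hn0 hn) hx.1 (mem_Tr.2 hx'.1)
    · intro j hj x hx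
      rcases Finset.mem_insert.1 hj with h | h
      · subst h
        by_cases hxC : x ∈ C
        · obtain ⟨n, hn, hx'⟩ := (hmem x).1 hxC
          refine ⟨n, hn, ?_⟩
          rw [mem_Tr] at hx' ⊢
          exact Or.inl hx'
        · refine ⟨0, by simpa using hN, ?_⟩
          rw [Tr_zero]
          exact Or.inr ⟨hx, hxC⟩
      · obtain ⟨n, hn, hx'⟩ := hBc j h x hx
        refine ⟨n, hn, ?_⟩
        rw [mem_Tr] at hx' ⊢
        exact Or.inl hx'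

/-- marker sets -/
theorem marker (σ : Hm) (hap : ∀ x : Cn, ∀ n : ℤ, n ≠ 0 → (σ ^ n : Hm) x ≠ x) (N : ℤ)
    (hN : 0 ≤ N) :
    ∃ B : Set Cn, IsClopen B ∧ (∀ n : ℤ, n ≠ 0 → |n| ≤ N → Disjoint B (Tr σ B n)) ∧
      ∀ x, ∃ n : ℤ, |n| ≤ N ∧ x ∈ Tr σ B n := by
  -- local sets
  have hloc : ∀ x : Cn, ∃ V : Set Cn, IsClopen V ∧ x ∈ V ∧
      ∀ n : ℤ, n ≠ 0 → |n| ≤ N → Disjoint V (Tr σ V n) := by
    intro x
    obtain ⟨U, hU1, hU2, -, hU4⟩ := TE3.nbh ((fun n : ℤ => (σ ^ n : Hm)) '' Set.Icc (-N) N)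
      ((Set.finite_Icc (-N) N).image _) 1 (fun _ => x) (fun _ => Set.univ)
      (fun _ _ => isOpen_univ) (fun _ _ => trivial)
    refine ⟨U 0, hU1 0, hU2 0, fun n hn0 hn => ?_⟩
    have h := hU4 0 one_pos 0 one_pos (σ ^ (0 : ℤ)) ⟨0, ⟨by linarith, hN⟩, rfl⟩ (σ ^ n)
      ⟨n, abs_le.1 hn, rfl⟩ (by
        rw [zpow_zero]
        exact (hap x n hn0).symm)
    rw [zpow_zero] at h
    have h1 : ((1 : Hm) '' U 0) = U 0 := Set.image_id _
    rw [h1] at h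
    exact h
  choose V hV1 hV2 hV3 using hloc
  obtain ⟨t, ht⟩ := isCompact_univ.elim_finite_subcover V (fun x => (hV1 x).2)
    (fun x _ => Set.mem_iUnion.2 ⟨x, hV2 x⟩)
  obtain ⟨B, hB1, hB2, hB3⟩ := marker_aux σ N hN V hV1 hV3 t
  refine ⟨B, hB1, hB2, fun x => ?_⟩
  obtain ⟨j, hj, hx⟩ := Set.mem_iUnion₂.1 (ht (Set.mem_univ x))
  exact hB3 j hj x hx

end Pool.Agent.H342VG
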