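import Pool.Agent.H342VG.TypeAB

/-!
# Placement of the pieces
-/

set_option autoImplicit false

namespace Pool.Agent.H342VG

open Pool.Agent.Helper106.VG Filter Topology

/-- open sets on which any two members of a finite family agree or differ everywhere -/
theorem opens2 (T : Set Hm) (hT : T.Finite) (O : Set Cn) (hO : IsOpen O) (hne : O.Nonempty) :
    ∃ O' ⊆ O, IsOpen O' ∧ O'.Nonempty ∧
      ∀ s ∈ T, ∀ t ∈ T, (∀ w ∈ O', s w = t w) ∨ (∀ w ∈ O', s w ≠ t w) := by
  classical
  have main : ∀ R : Finset (Hm × Hm), ∃ O' ⊆ O, IsOpen O' ∧ O'.Nonempty ∧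
      ∀ p ∈ R, (∀ w ∈ O', p.1 w = p.2 w) ∨ (∀ w ∈ O', p.1 w ≠ p.2 w) := by
    intro R
    induction R using Finset.induction_on with
    | empty => exact ⟨O, subset_rfl, hO, hne, fun p hp => absurd hp (Finset.notMem_empty p)⟩
    | insert p R _ ih =>
      obtain ⟨O', hsub, hO', hne', h⟩ := ih
      by_cases hp : ∀ w ∈ O', p.1 w = p.2 w
      · refine ⟨O', hsub, hO', hne', fun q hq => ?_⟩
        rcases Finset.mem_insert.1 hq with rfl | hq
        · exact Or.inl hp
        · exact h q hq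
      · push Not at hp
        obtain ⟨w, hw, hwne⟩ := hp
        refine ⟨O' ∩ {w | p.1 w ≠ p.2 w}, fun w hw => hsub hw.1,
          hO'.inter (isOpen_ne_fun p.1.continuous p.2.continuous), ⟨w, hw, hwne⟩,
          fun q hq => ?_⟩
        rcases Finset.mem_insert.1 hq with rfl | hq
        · exact Or.inr fun w hw => hw.2
        · rcases h q hq with h' | h'
          · exact Or.inl fun w hw => h' w hw.1
          · exact Or.inr fun w hw => h' w hw.1
  obtain ⟨O', h1, h2, h3, h4⟩ := main (hT.toFinset ×ˢ hT.toFinset)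
  refine ⟨O', h1, h2, h3, fun s hs t ht => ?_⟩
  exact h4 (s, t) (Finset.mem_product.2 ⟨hT.mem_toFinset.2 hs, hT.mem_toFinset.2 ht⟩)

theorem place (hA : A_room) (hB : B_small) (hT : C_top) (hC : C_ext) {G : Subgroup Hm}
    (hv : Vigorous G) (hs : IsSimpleGroup G) {k : ℕ} (α : Fin k → Hm) (hαG : ∀ i, α i ∈ G)
    (hα : ∀ i, α i ≠ 1) {τ : Hm} (hτ : τ ∈ G) {F : Set Cn} (hF : IsClopen F) (hFne : F.Nonempty)
    (J : Type) [Finite J] (cls : J → Fin k) (idx : J × Bool → ℤ) (φ : J → Hm)
    (hφG : ∀ j, φ j ∈ G) (hφF : ∀ j, φ j ∈ Supp F)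
    (hd : ∀ a b, a ≠ b → Disjoint (Tr τ F (idx a)) (Tr τ F (idx b)))
    (hdF : ∀ a, Disjoint F (Tr τ F (idx a))) :
    ∃ γ ∈ G, ∀ i : Fin k,
      (∀ j, cls j = i → ∀ z ∈ F, (γ⁻¹ * α i * γ : Hm) ((τ ^ idx (j, false) : Hm) z) =
        (τ ^ idx (j, true) : Hm) (φ j z)) ∧
      (((∀ y, y ∉ F → (∀ a, y ∉ Tr τ F (idx a)) → (γ⁻¹ * α i * γ : Hm) y ∈ F) ∧
        (∀ a, (γ⁻¹ * α i * γ : Hm) '' Tr τ F (idx a) ⊆ F ∨
          ∃ b, (γ⁻¹ * α i * γ : Hm) '' Tr τ F (idx a) = Tr τ F (idx b))) ∨
      (∀ y, y ∉ F → (∀ a, y ∉ Tr τ F (idx a)) → (γ⁻¹ * α i * γ : Hm) y = y)) := by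
  classical
  obtain ⟨n, ⟨e⟩⟩ := Finite.exists_equiv_fin J
  -- the homeomorphisms
  set T : Set Hm := insert 1 (Set.range α ∪ Set.range fun p : Fin k × Fin k => α p.1 * α p.2)
    with hTdef
  have hTf : T.Finite := ((Set.finite_range α).union (Set.finite_range _)).insert 1
  have h1T : (1 : Hm) ∈ T := Set.mem_insert _ _
  have hαT : ∀ i, α i ∈ T := fun i => Set.mem_insert_of_mem _ (Or.inl ⟨i, rfl⟩)
  have hααT : ∀ i i', α i * α i' ∈ T := fun i i' => Set.mem_insert_of_mem _ (Or.inr ⟨(i, i'), rfl⟩)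
  -- the open sets
  have hmv : ∀ i, ∃ O' : Set Cn, IsOpen O' ∧ O'.Nonempty ∧ (∀ w ∈ O', α i w ≠ w) ∧
      ∀ s ∈ T, ∀ t ∈ T, (∀ w ∈ O', s w = t w) ∨ (∀ w ∈ O', s w ≠ t w) := by
    intro i
    have base : ∃ x, α i x ≠ x := by
      by_contra h
      push Not at h
      exact hα i (Homeomorph.ext h)
    obtain ⟨O', h1, h2, h3, h4⟩ := opens2 T hTf {w | α i w ≠ w}
      (isOpen_ne_fun (α i).continuous continuous_id) base
    exact ⟨O', h2, h3, fun w hw => h1 hw, h4⟩
  choose O' hO1 hO2 hO3 hO4 using hmv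
  obtain ⟨W, -, hW1, hW2, hW3⟩ := opens2 T hTf Set.univ isOpen_univ ⟨fun _ => false, trivial⟩
  set O : ℕ → Set Cn := fun a => if h : a < n then O' (cls (e.symm ⟨a, h⟩)) else W with hOdef
  have hOe : ∀ j : J, O (e j) = O' (cls j) := by
    intro j
    rw [hOdef]
    simp only [dif_pos (e j).2, Fin.eta, Equiv.symm_apply_apply]
  have hOn : O n = W := by
    rw [hOdef]
    simp only [dif_neg (lt_irrefl n)]
  have hOo : ∀ a, IsOpen (O a) := by
    intro a
    by_cases h : a < n
    · have := hOe (e.symm ⟨a, h⟩)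
      rw [Equiv.apply_symm_apply] at this
      rw [this]
      exact hO1 _
    · rw [hOdef]
      simp only [dif_neg h]
      exact hW1
  have hOne : ∀ a, (O a).Nonempty := by
    intro a
    by_cases h : a < n
    · have := hOe (e.symm ⟨a, h⟩)
      rw [Equiv.apply_symm_apply] at this
      rw [this]
      exact hO2 _
    · rw [hOdef]
      simp only [dif_neg h]
      exact hW2
  -- the points
  obtain ⟨x, hx1, hx2⟩ := TE3.pts hA T hTf O (n + 2) (fun a _ => hOo a) (fun a _ => hOne a)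
  -- the neighbourhoods
  obtain ⟨U, hU1, hU2, hU3, hU4⟩ := TE3.nbh T hTf (n + 2) x O (fun a _ => hOo a) hx1
  have sepd : ∀ a < n + 2, ∀ b < n + 2, a ≠ b → ∀ s ∈ T, ∀ t ∈ T,
      Disjoint (s '' U a) (t '' U b) := fun a ha b hb hab s hs t ht =>
    hU4 a ha b hb s hs t ht (hx2 a ha b hb hab s hs t ht)
  have hel : ∀ j : J, ((e j : Fin n) : ℕ) < n := fun j => (e j).2
  have hel2 : ∀ j : J, ((e j : Fin n) : ℕ) < n + 2 := fun j => by have := hel j; omega
  have hUO : ∀ j : J, U (e j) ⊆ O' (cls j) := by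
    intro j
    have := hU3 (e j) (hel2 j)
    rwa [hOe j] at this
  have hxO : ∀ j : J, x (e j) ∈ O' (cls j) := fun j => hUO j (hU2 _)
  have hUW : U n ⊆ W := by
    have := hU3 n (by omega)
    rwa [hOn] at this
  -- the base piece
  set M : Set Cn := (F ∪ ⋃ a, Tr τ F (idx a))ᶜ with hMdef
  have hMcl : IsClopen M :=
    (hF.union (isClopen_iUnion_of_finite fun a => Tr_clop hF (idx a))).compl
  have hmemM : ∀ y, y ∈ M ↔ y ∉ F ∧ ∀ a, y ∉ Tr τ F (idx a) := by
    intro y
    rw [hMdef, Set.mem_compl_iff, Set.mem_union, not_or, Set.mem_iUnion, not_exists]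
  obtain ⟨f0, hf0⟩ := hFne
  have hMne : M ≠ Set.univ := by
    intro h
    have : f0 ∈ M := h ▸ Set.mem_univ _
    exact ((hmemM f0).1 this).1 hf0
  -- the small maps
  have hg : ∀ j : J, ∃ g ∈ G, g '' Tr τ F (idx (j, false)) ⊆ U (e j) := by
    intro j
    have hne : Tr τ F (idx (j, false)) ≠ Set.univ := by
      intro he
      exact Set.disjoint_left.1 (hdF (j, false)) hf0 (he ▸ Set.mem_univ _)
    obtain ⟨c, hc1, hc2, -⟩ := hB G hv 1 (Tr τ F (idx (j, false))) (U (e j))
      (Tr_clop hF _) hne (hU1 _) ⟨_, hU2 _⟩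
    exact ⟨c 0, hc1 0, hc2 0 one_pos⟩
  choose g hgG hgU using hg
  obtain ⟨gM, hgMG, hgMU⟩ : ∃ g ∈ G, g '' M ⊆ U n := by
    obtain ⟨c, hc1, hc2, -⟩ := hB G hv 1 M (U n) hMcl hMne (hU1 _) ⟨_, hU2 _⟩
    exact ⟨c 0, hc1 0, hc2 0 one_pos⟩
  -- the pieces
  let ι : Type := Option (J × Bool)
  let Z : ι → Set Cn := fun a => a.elim M fun p => Tr τ F (idx p)
  let β : J → Hm := fun j => τ ^ (idx (j, false)) * (φ j)⁻¹ * (τ ^ (idx (j, true)))⁻¹
  have hβG : ∀ j, β j ∈ G := fun j => G.mul_mem (G.mul_mem (G.zpow_mem hτ _)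
    (G.inv_mem (hφG j))) (G.inv_mem (G.zpow_mem hτ _))
  let γ : ι → Hm := fun a => a.elim gM fun p => if p.2 then α (cls p.1) * g p.1 * β p.1 else g p.1
  let nn : ι → ℕ := fun a => a.elim n fun p => (e p.1 : ℕ)
  let ss : ι → Hm := fun a => a.elim 1 fun p => if p.2 then α (cls p.1) else 1
  have hnn : ∀ a, nn a < n + 1 := by
    rintro (_ | ⟨j, b⟩)
    · exact Nat.lt_succ_self n
    · exact (hel j).trans (Nat.lt_succ_self n)
  have hnn2 : ∀ a, nn a < n + 2 := fun a => (hnn a).trans (Nat.lt_succ_self _)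
  have hss : ∀ a, ss a ∈ T := by
    rintro (_ | ⟨j, (_ | _)⟩)
    · exact h1T
    · exact h1T
    · exact hαT _
  have hβ1 : ∀ j, β j '' Tr τ F (idx (j, true)) = Tr τ F (idx (j, false)) := by
    intro j
    have h1 : ∀ z, β j ((τ ^ (idx (j, true)) : Hm) z) = (τ ^ (idx (j, false)) : Hm) ((φ j)⁻¹ z) := by
      intro z
      change (τ ^ (idx (j, false)) : Hm) ((φ j)⁻¹ ((τ ^ (idx (j, true)) : Hm)⁻¹
        ((τ ^ (idx (j, true)) : Hm) z))) = _
      rw [inv_ap_ap]
    have h2 : β j '' Tr τ F (idx (j, true)) = (τ ^ (idx (j, false)) : Hm) '' (((φ j)⁻¹ : Hm) '' F) := by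
      rw [Tr, ← Set.image_comp, ← Set.image_comp]
      exact Set.image_congr fun z _ => h1 z
    rw [h2, Supp_image ((Supp F).inv_mem (hφF j)), Tr]
  -- the images of the pieces
  have hγV : ∀ j b, γ (some (j, b)) '' Z (some (j, b)) =
      ss (some (j, b)) '' (g j '' Tr τ F (idx (j, false))) := by
    rintro j (_ | _)
    · change g j '' Tr τ F (idx (j, false)) = (1 : Hm) '' (g j '' Tr τ F (idx (j, false)))
      exact (Set.image_id _).symm
    · change (α (cls j) * g j * β j : Hm) '' Tr τ F (idx (j, true)) =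
        α (cls j) '' (g j '' Tr τ F (idx (j, false)))
      rw [← hβ1 j, ← Set.image_comp, ← Set.image_comp]
      rfl
  have hWW : ∀ a, γ a '' Z a ⊆ ss a '' U (nn a) := by
    rintro (_ | ⟨j, b⟩)
    · change gM '' M ⊆ (1 : Hm) '' U n
      intro y hy
      exact ⟨y, hgMU hy, rfl⟩
    · rw [hγV]
      exact Set.image_mono (hgU j)
  have hZcl : ∀ a, IsClopen (Z a) := by
    rintro (_ | p)
    · exact hMcl
    · exact Tr_clop hF _
  have hγG : ∀ a, γ a ∈ G := by
    rintro (_ | ⟨j, (_ | _)⟩)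
    · exact hgMG
    · exact hgG j
    · exact G.mul_mem (G.mul_mem (hαG _) (hgG j)) (hβG j)
  have hdZ : ∀ a b, a ≠ b → Disjoint (Z a) (Z b) := by
    rintro (_ | p) (_ | q) hab
    · exact absurd rfl hab
    · change Disjoint M (Tr τ F (idx q))
      rw [Set.disjoint_left]
      intro y hy
      exact ((hmemM y).1 hy).2 q
    · change Disjoint (Tr τ F (idx p)) M
      rw [Set.disjoint_right]
      intro y hy
      exact ((hmemM y).1 hy).2 p
    · exact hd p q fun h => hab (by rw [h])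
  have hself : ∀ j : J, Disjoint ((1 : Hm) '' U (e j)) (α (cls j) '' U (e j)) := fun j =>
    hU4 _ (hel2 j) _ (hel2 j) 1 h1T _ (hαT _) fun he => hO3 (cls j) _ (hxO j) he.symm
  have htar : ∀ a b, a ≠ b → Disjoint (ss a '' U (nn a)) (ss b '' U (nn b)) := by
    intro a b hab
    by_cases hn : nn a = nn b
    · revert a b
      rintro (_ | ⟨j, b⟩) (_ | ⟨j', b'⟩) hab hn
      · exact absurd rfl hab
      · have hn' : n = (e j' : ℕ) := hn
        exact absurd hn' (Nat.ne_of_gt (hel j'))
      · have hn' : (e j : ℕ) = n := hn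
        exact absurd hn' (Nat.ne_of_lt (hel j))
      · have hn' : (e j : ℕ) = (e j' : ℕ) := hn
        have hjj : j = j' := e.injective (Fin.ext hn')
        subst hjj
        rcases b with _ | _ <;> rcases b' with _ | _
        · exact absurd rfl hab
        · exact hself j
        · exact (hself j).symm
        · exact absurd rfl hab
    · exact sepd _ (hnn2 a) _ (hnn2 b) hn _ (hss a) _ (hss b)
  have hd' : ∀ a b, a ≠ b → Disjoint (γ a '' Z a) (γ b '' Z b) := fun a b hab =>
    Set.disjoint_of_subset (hWW a) (hWW b) (htar a b hab)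
  have hp : ∃ x, ∀ a, x ∉ Z a := by
    refine ⟨f0, ?_⟩
    rintro (_ | p) hmem
    · exact ((hmemM f0).1 hmem).1 hf0
    · exact Set.disjoint_left.1 (hdF p) hf0 hmem
  have hp' : ∃ x, ∀ a, x ∉ γ a '' Z a := by
    refine ⟨x (n + 1), fun a ha => ?_⟩
    have h1 := hWW a ha
    have h2 : x (n + 1) ∈ (1 : Hm) '' U (n + 1) := ⟨_, hU2 _, rfl⟩
    exact Set.disjoint_left.1 (sepd (nn a) (hnn2 a) (n + 1) (Nat.lt_succ_self _)
      (Nat.ne_of_lt (hnn a)) _ (hss a) 1 h1T) h1 h2
  obtain ⟨t, htG, hz⟩ := TE3.glue hv hs hT hC Z γ hZcl hγG hdZ hd' hp hp'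
  have htimg : ∀ a, t '' Z a = γ a '' Z a := fun a => Set.image_congr fun z hz' => hz a z hz'
  have htM : ∀ z ∈ M, t z ∈ U n := fun z hzM => by
    rw [hz none z hzM]
    exact hgMU ⟨z, hzM, rfl⟩
  -- points outside all pieces lie in `F`
  have hcov : ∀ y, (∀ a, t y ∉ ss a '' U (nn a)) → y ∈ F := by
    intro y hy
    by_contra hyF
    by_cases hyM : y ∈ M
    · exact hy none ⟨t y, htM y hyM, rfl⟩
    · rw [hmemM] at hyM
      push Not at hyM
      obtain ⟨p, hp⟩ := hyM hyF
      apply hy (some p)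
      apply hWW
      rw [← htimg]
      exact ⟨y, hp, rfl⟩
  refine ⟨t, htG, fun i => ⟨?_, ?_⟩⟩
  · rintro j rfl z hzF
    have e1 : t ((τ ^ idx (j, false) : Hm) z) = g j ((τ ^ idx (j, false) : Hm) z) :=
      hz (some (j, false)) _ ⟨z, hzF, rfl⟩
    have e2 : t ((τ ^ idx (j, true) : Hm) (φ j z)) =
        α (cls j) (g j ((τ ^ idx (j, false) : Hm) z)) := by
      have h1 := hz (some (j, true)) _ ⟨φ j z, Supp_maps (hφF j) hzF, rfl⟩
      rw [h1]
      change α (cls j) (g j ((τ ^ idx (j, false) : Hm) ((φ j)⁻¹ ((τ ^ idx (j, true) : Hm)⁻¹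
        ((τ ^ idx (j, true) : Hm) (φ j z)))))) = _
      rw [inv_ap_ap, inv_ap_ap]
    change t⁻¹ (α (cls j) (t ((τ ^ idx (j, false) : Hm) z))) = _
    rw [e1, ← e2, inv_ap_ap]
  · rcases hW3 (α i) (hαT i) 1 h1T with hpat | hpat
    · right
      intro y hyF hyT
      have hyM : y ∈ M := (hmemM y).2 ⟨hyF, hyT⟩
      change t⁻¹ (α i (t y)) = y
      rw [hpat _ (hUW (htM y hyM)), one_ap, inv_ap_ap]
    · left
      have hgen : ∀ (s : Hm), s ∈ T → ∀ m < n + 1, (∀ a, nn a = m → s (x m) ≠ ss a (x m)) →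
          ∀ y, (t y) ∈ s '' U m → y ∈ F := by
        intro s hsT m hm hne y hy
        apply hcov
        intro a ha
        by_cases hnm : nn a = m
        · have h1 := hne a hnm
          rw [hnm] at ha
          exact Set.disjoint_left.1 (hU4 m (by omega) m (by omega) s hsT (ss a) (hss a) h1) hy ha
        · exact Set.disjoint_left.1 (sepd m (by omega) (nn a) (hnn2 a) (fun h => hnm h.symm) s hsT
            (ss a) (hss a)) hy ha
      constructor
      · intro y hyF hyT
        have hyM : y ∈ M := (hmemM y).2 ⟨hyF, hyT⟩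
        refine hgen (α i) (hαT i) n (Nat.lt_succ_self n) ?_ _ ?_
        · rintro (_ | ⟨j, b⟩) hnn'
          · exact hpat _ (hUW (hU2 n))
          · have hn' : (e j : ℕ) = n := hnn'
            exact absurd hn' (Nat.ne_of_lt (hel j))
        · change t (t⁻¹ (α i (t y))) ∈ _
          rw [ap_inv_ap]
          exact ⟨_, htM y hyM, rfl⟩
      · rintro ⟨j, b⟩
        -- the image of the piece
        have himg : ∀ y ∈ Tr τ F (idx (j, b)), t y ∈ ss (some (j, b)) ''
            (g j '' Tr τ F (idx (j, false))) := by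
          intro y hy
          have h1 : t y ∈ t '' Z (some (j, b)) := ⟨y, hy, rfl⟩
          rw [htimg, hγV] at h1
          exact h1
        have himg2 : t '' Tr τ F (idx (j, b)) = ss (some (j, b)) ''
            (g j '' Tr τ F (idx (j, false))) := by
          have := htimg (some (j, b))
          rw [hγV] at this
          exact this
        have hsT : α i * ss (some (j, b)) ∈ T := by
          rcases b with _ | _
          · change α i * 1 ∈ T
            rw [mul_one]
            exact hαT i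
          · exact hααT _ _
        have hconj : (t⁻¹ * α i * t : Hm) '' Tr τ F (idx (j, b)) =
            (t⁻¹ : Hm) '' ((α i * ss (some (j, b)) : Hm) '' (g j '' Tr τ F (idx (j, false)))) := by
          have h1 : (t⁻¹ * α i * t : Hm) '' Tr τ F (idx (j, b)) =
              (t⁻¹ : Hm) '' (α i '' (t '' Tr τ F (idx (j, b)))) := by
            rw [← Set.image_comp, ← Set.image_comp]
            rfl
          have h2 : (α i * ss (some (j, b)) : Hm) '' (g j '' Tr τ F (idx (j, false))) =
              α i '' (ss (some (j, b)) '' (g j '' Tr τ F (idx (j, false)))) := by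
            rw [← Set.image_comp (α i)]
            rfl
          rw [h1, himg2, h2]
        have hgO : ∀ z ∈ g j '' Tr τ F (idx (j, false)), z ∈ O' (cls j) := fun z hz' =>
          hUO j (hgU j hz')
        have hback : ∀ b', (t⁻¹ : Hm) '' (ss (some (j, b')) '' (g j '' Tr τ F (idx (j, false)))) =
            Tr τ F (idx (j, b')) := by
          intro b'
          have h1 := htimg (some (j, b'))
          rw [hγV] at h1
          rw [← h1, ← Set.image_comp]
          have h2 : (⇑(t⁻¹) ∘ ⇑t : Cn → Cn) = id := funext fun y => inv_ap_ap t y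
          rw [h2, Set.image_id]
          rfl
        rcases hO4 (cls j) _ hsT 1 h1T with h1 | h1
        · right
          refine ⟨(j, false), ?_⟩
          rw [hconj]
          refine Eq.trans ?_ (hback false)
          congr 1
          exact Set.image_congr fun z hz' => h1 z (hgO z hz')
        rcases hO4 (cls j) _ hsT (α (cls j)) (hαT _) with h2 | h2
        · right
          refine ⟨(j, true), ?_⟩
          rw [hconj]
          refine Eq.trans ?_ (hback true)
          congr 1
          exact Set.image_congr fun z hz' => h2 z (hgO z hz')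
        · left
          rw [hconj]
          rintro _ ⟨w, hw, rfl⟩
          refine hgen _ hsT (e j) ((hel j).trans (Nat.lt_succ_self n)) ?_ _ ?_
          · rintro (_ | ⟨j', b'⟩) hnn'
            · have hn' : n = (e j : ℕ) := hnn'
              exact absurd hn' (Nat.ne_of_gt (hel j))
            · have hn' : (e j' : ℕ) = (e j : ℕ) := hnn'
              have hjj : j' = j := e.injective (Fin.ext hn')
              subst hjj
              rcases b' with _ | _
              · exact h1 _ (hxO j')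
              · exact h2 _ (hxO j')
          · rw [ap_inv_ap]
            exact Set.image_mono (hgU j) hw

end Pool.Agent.H342VG
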