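import Pool.Agent.H342VG.Core
import Pool.Agent.H342VG.Index

/-!
# The two types of positions
-/

set_option autoImplicit false

namespace Pool.Agent.H342VG

open Pool.Agent.Helper106.VG Filter Topology

/-- translates with different indices in the range are disjoint -/
theorem Tr_disj {τ : Hm} {F : Set Cn} {N : ℤ}
    (hN : ∀ n : ℤ, n ≠ 0 → |n| ≤ N → Disjoint F (Tr τ F n)) {m n : ℤ} (hmn : m ≠ n)
    (hb : |n - m| ≤ N) : Disjoint (Tr τ F m) (Tr τ F n) := by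
  rw [Set.disjoint_left]
  intro x hx hx'
  have h := hN (n - m) (sub_ne_zero.2 (Ne.symm hmn)) hb
  rw [mem_Tr] at hx
  refine Set.disjoint_left.1 h hx ?_
  rw [zpow_ap_Tr]
  have : n - m - -m = n := by ring
  rwa [this]

/-- conjugates of two homeomorphisms whose supports lie in few translates -/
theorem two_move {τ : Hm} {F : Set Cn} {N : ℤ}
    (hN : ∀ n : ℤ, n ≠ 0 → |n| ≤ N → Disjoint F (Tr τ F n)) {c c' : Hm} {D D' : Set ℤ} {a a' : ℤ}
    (hc : ∀ y, (∀ u ∈ D, y ∉ Tr τ F u) → c y = y) (hc' : ∀ y, (∀ v ∈ D', y ∉ Tr τ F v) → c' y = y)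
    (hu : ∀ u ∈ D, ∀ v ∈ D', u - a = v - a' → u = a)
    (hb : ∀ u ∈ D, ∀ v ∈ D', |(v - a') - (u - a)| ≤ N) (y : Cn) (hy : y ∉ F) :
    Cj τ (-a) c y = y ∨ Cj τ (-a') c' y = y := by
  by_contra hcon
  push Not at hcon
  obtain ⟨h1, h2⟩ := hcon
  have e1 : ∃ u ∈ D, y ∈ Tr τ F (u - a) := by
    by_contra hno
    push Not at hno
    apply h1
    have h3 : c ((τ ^ a : Hm) y) = (τ ^ a : Hm) y := by
      apply hc
      intro u hu'
      rw [zpow_ap_Tr]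
      exact hno u hu'
    rw [Cj_def, mul_ap, mul_ap, zpow_neg, inv_inv, h3, inv_ap_ap]
  have e2 : ∃ v ∈ D', y ∈ Tr τ F (v - a') := by
    by_contra hno
    push Not at hno
    apply h2
    have h3 : c' ((τ ^ a' : Hm) y) = (τ ^ a' : Hm) y := by
      apply hc'
      intro u hu'
      rw [zpow_ap_Tr]
      exact hno u hu'
    rw [Cj_def, mul_ap, mul_ap, zpow_neg, inv_inv, h3, inv_ap_ap]
  obtain ⟨u, huD, hyu⟩ := e1
  obtain ⟨v, hvD, hyv⟩ := e2
  have heq : u - a = v - a' := by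
    by_contra hne
    exact Set.disjoint_left.1 (Tr_disj hN hne (hb u huD v hvD)) hyu hyv
  have h4 := hu u huD v hvD heq
  rw [h4, sub_self, Tr_zero] at hyu
  exact hy hyu

theorem Cj_neg_ap {τ : Hm} {c : Hm} {a : ℤ} (z : Cn) :
    Cj τ (-a) c z = (τ ^ (-a) : Hm) (c ((τ ^ a : Hm) z)) := by
  rw [Cj_def, mul_ap, mul_ap, zpow_neg, inv_inv]

theorem zz {τ : Hm} (a b : ℤ) (z : Cn) : (τ ^ a : Hm) ((τ ^ b : Hm) z) = (τ ^ (a + b) : Hm) z := by
  rw [← mul_ap, ← zpow_add]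

/-- first level commutators in type A -/
theorem levelA (hcomm : C_comm) {τ α : Hm} {F : Set Cn} {Spec : Set ℤ}
    (hA1 : ∀ y, y ∉ F → (∀ s ∈ Spec, y ∉ Tr τ F s) → α y ∈ F)
    (hA2 : ∀ s ∈ Spec, α '' Tr τ F s ⊆ F ∨ ∃ s' ∈ Spec, α '' Tr τ F s = Tr τ F s')
    (p p' : ℤ) (hp : ∀ z ∈ F, α ((τ ^ p : Hm) z) = (τ ^ p' : Hm) z) (E : Set ℤ)
    (hE : ∀ s ∈ Spec, ∃ e ∈ E, ∀ z ∈ Tr τ F s, (τ ^ (-p') * α * τ ^ p : Hm) z ∈ Tr τ F e)
    (hEF : ∀ e ∈ E, Disjoint (Tr τ F e) F)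
    (hES : ∀ e ∈ E, ∀ s ∈ Spec, Disjoint (Tr τ F e) (Tr τ F s))
    (hSF : ∀ s ∈ Spec, Disjoint (Tr τ F s) F) :
    ∃ c : Hm, (∀ H : Subgroup Hm, τ ∈ H → α ∈ H → c ∈ H) ∧
      (∀ s' ∈ Spec, (∃ s ∈ Spec, α '' Tr τ F s = Tr τ F s') → ∀ z ∈ Tr τ F s',
        c z = (τ ^ (-p') * α * τ ^ p : Hm) z) ∧
      ∀ y, y ∉ F → (∀ s ∈ Spec, y ∉ Tr τ F s) → (∀ e ∈ E, y ∉ Tr τ F e) → c y = y := by
  set w : Hm := τ ^ (-p') * α * τ ^ p with hw
  have hwF : ∀ z ∈ F, w z = z := by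
    intro z hz
    rw [hw, mul_ap, mul_ap, hp z hz, zz, neg_add_cancel, zpow_zero, one_ap]
  set t : Hm := α * w * α⁻¹ with ht
  set U : Set Cn := {y | ∃ s' ∈ Spec, (∃ s ∈ Spec, α '' Tr τ F s = Tr τ F s') ∧ y ∈ Tr τ F s'}
    with hU
  have hfix : ∀ y, y ∉ U → w y = y ∨ t y = y := by
    intro y hy
    by_cases h1 : y ∈ F
    · exact Or.inl (hwF y h1)
    right
    by_cases h2 : α⁻¹ y ∈ F
    · rw [ht, mul_ap, mul_ap, hwF _ h2, ap_inv_ap]
    exfalso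
    by_cases h3 : ∀ s ∈ Spec, α⁻¹ y ∉ Tr τ F s
    · have := hA1 _ h2 h3
      rw [ap_inv_ap] at this
      exact h1 this
    · push Not at h3
      obtain ⟨s, hs, h4⟩ := h3
      have h5 : y ∈ α '' Tr τ F s := ⟨_, h4, ap_inv_ap α y⟩
      rcases hA2 s hs with h6 | ⟨s', hs', h6⟩
      · exact h1 (h6 h5)
      · exact hy ⟨s', hs', ⟨s, hs, h6⟩, h6 ▸ h5⟩
  have hMF : ∀ e ∈ E, ∀ z ∈ Tr τ F e, α z ∈ F := fun e he z hz =>
    hA1 z (Set.disjoint_left.1 (hEF e he) hz) fun s hs => Set.disjoint_left.1 (hES e he s hs) hz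
  have hwU : ∀ z ∈ U, ∃ e ∈ E, w z ∈ Tr τ F e := by
    rintro z ⟨s', hs', -, hz⟩
    obtain ⟨e, he, h⟩ := hE s' hs'
    exact ⟨e, he, h z hz⟩
  have htU : ∀ z ∈ U, t z ∈ F := by
    rintro z ⟨s', hs', ⟨s, hs, hss⟩, hz⟩
    rw [← hss] at hz
    obtain ⟨v, hv, rfl⟩ := hz
    obtain ⟨e, he, h⟩ := hE s hs
    rw [ht, mul_ap, mul_ap, inv_ap_ap]
    exact hMF e he _ (h v hv)
  have hd1 : Disjoint U (w '' U) := by
    rw [Set.disjoint_left]
    rintro y ⟨s', hs', -, hy⟩ ⟨z, hz, rfl⟩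
    obtain ⟨e, he, h⟩ := hwU z hz
    exact Set.disjoint_left.1 (hES e he s' hs') h hy
  have hd2 : Disjoint U (t '' U) := by
    rw [Set.disjoint_left]
    rintro y ⟨s', hs', -, hy⟩ ⟨z, hz, rfl⟩
    exact Set.disjoint_left.1 (hSF s' hs') hy (htU z hz)
  obtain ⟨k1, -, -, k4⟩ := hcomm U w t hfix hd1 hd2
  refine ⟨cm w t, ?_, ?_, ?_⟩
  · intro H hτ hα
    have hwH : w ∈ H := H.mul_mem (H.mul_mem (H.zpow_mem hτ _) hα) (H.zpow_mem hτ _)
    exact cm_mem hwH (H.mul_mem (H.mul_mem hα hwH) (H.inv_mem hα))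
  · intro s' hs' hss z hz
    exact k1 z ⟨s', hs', hss, hz⟩
  · intro y hyF hyS hyE
    apply k4
    · rintro ⟨s', hs', -, hy⟩
      exact hyS s' hs' hy
    · rintro ⟨z, hz, rfl⟩
      obtain ⟨e, he, h⟩ := hwU z hz
      exact hyE e he h
    · rintro ⟨z, hz, rfl⟩
      exact hyF (htU z hz)

/-- the prescribed behaviour of `α` on the special pieces of the `i`-th family -/
structure Own (τ α x y : Hm) (F : Set Cn) (P : ℤ) : Prop where
  o1 : ∀ z ∈ F, α ((τ ^ (P * 7) : Hm) z) = (τ ^ (P * 4) : Hm) z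
  o2 : ∀ z ∈ F, α ((τ ^ (P * 9) : Hm) z) = (τ ^ (P * 10) : Hm) z
  o3 : ∀ z ∈ F, α ((τ ^ (P * 11) : Hm) z) = (τ ^ (P * 21) : Hm) z
  o4 : ∀ z ∈ F, α ((τ ^ (P * 19) : Hm) z) = (τ ^ (P * 22) : Hm) (x z)
  o5 : ∀ z ∈ F, α ((τ ^ (P * 31) : Hm) z) = (τ ^ (P * 34) : Hm) (y z)
  o6 : ∀ z ∈ F, α ((τ ^ (P * 43) : Hm) z) = (τ ^ (P * 46) : Hm) z

section

variable {G : Subgroup Hm} (hv : Vigorous G) (hs : IsSimpleGroup G) (hperf : C_perf)
  (hcomm : C_comm) {F : Set Cn} (hF : IsClopen F) {x y : Hm} (hx : x ∈ Supp F)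
  (hy : y ∈ Supp F) (hxy : Alt G F ≤ Subgroup.closure {x, y}) {τ α : Hm}
  {k i : ℕ} (hi : i < k) {N : ℤ} (hNk : 1000 ^ k * 1000 ≤ N)
  (hN : ∀ n : ℤ, n ≠ 0 → |n| ≤ N → Disjoint F (Tr τ F n))
  (hown : Own τ α x y F (1000 ^ i))

include hv hs hperf hcomm hF hx hy hxy hi hNk hN hown

theorem typeB (hB : ∀ y, y ∉ F → (∀ s ∈ Spec k, y ∉ Tr τ F s) → α y = y) {H : Subgroup Hm}
    (hτ : τ ∈ H) (hα : α ∈ H) : Alt G F ≤ H := by
  set P : ℤ := 1000 ^ i with hP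
  have hPpos : 0 < P := kpos i
  have hPk : P ≤ 1000 ^ k := pow_le_pow_right₀ (by norm_num) hi.le
  have hsupp : ∀ y, (∀ u ∈ DD k i ∅, y ∉ Tr τ F u) → α y = y := by
    intro y hy
    apply hB
    · have := hy 0 (Or.inr (Or.inl rfl))
      rwa [Tr_zero] at this
    · exact fun s hs => hy s (Or.inl hs)
  have hbd : ∀ u ∈ DD k i ∅, |u| ≤ 1000 ^ k * 100 := fun u hu => DD_bd hi (by simp) hu
  have hmv : ∀ m : ℤ, (m = 19 ∨ m = 31 ∨ m = 43) → ∀ y, y ∉ F →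
      Cj τ (-(P * 11)) α y = y ∨ Cj τ (-(P * m)) α y = y := by
    intro m hm
    refine two_move hN hsupp hsupp ?_ ?_
    · intro u hu v hv huv
      have h1 : u - v = P * (11 - m) := by
        have : u - v = P * 11 - P * m := by linarith
        rw [this]; ring
      obtain ⟨a, ha, c, hc, h2, h3, h4⟩ := DD_diff (by simp) (by simp) hu hv
        (by rcases hm with rfl | rfl | rfl <;> norm_num)
        (by rcases hm with rfl | rfl | rfl <;> norm_num) h1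
      have h5 : a = 11 := by
        rw [Finset.union_empty] at ha hc
        rcases hm with rfl | rfl | rfl
        · clear h2 h3; revert a c; decide
        · clear h2 h3; revert a c; decide
        · clear h2 h3; revert a c; decide
      rw [h2, h5]
    · intro u hu v hv
      have h1 := abs_le.1 (hbd u hu)
      have h2 := abs_le.1 (hbd v hv)
      rw [abs_le]
      rcases hm with rfl | rfl | rfl <;> constructor <;> nlinarith
  have hone : ∀ (n : ℤ), n ≠ 0 → |n| ≤ 100 → Disjoint F (Tr τ F (P * n)) := by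
    intro n hn hn'
    refine hN _ (mul_ne_zero hPpos.ne' hn) ?_
    rw [abs_mul, abs_of_pos hPpos]
    have : P * |n| ≤ 1000 ^ k * 100 := mul_le_mul hPk hn' (abs_nonneg _) (by positivity)
    linarith
  have htwo : ∀ (m n : ℤ), m ≠ n → |n - m| ≤ 100 → Disjoint (Tr τ F (P * m)) (Tr τ F (P * n)) := by
    intro m n hmn hn'
    refine Tr_disj hN (fun h => hmn (mul_left_cancel₀ hPpos.ne' h)) ?_
    rw [← mul_sub, abs_mul, abs_of_pos hPpos]
    have : P * |n - m| ≤ 1000 ^ k * 100 := mul_le_mul hPk hn' (abs_nonneg _) (by positivity)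
    linarith
  refine core hv hs hperf hcomm hF hx hy hxy hτ (b1 := P * 10) (b2 := P * 3)
    (c1 := Cj τ (-(P * 11)) α) (c2 := Cj τ (-(P * 19)) α) (c3 := Cj τ (-(P * 31)) α)
    (c4 := Cj τ (-(P * 43)) α) (Cj_mem hτ _ hα) (Cj_mem hτ _ hα) (Cj_mem hτ _ hα)
    (Cj_mem hτ _ hα) ?_ ?_ ?_ ?_ (hmv 19 (by norm_num)) (hmv 31 (by norm_num))
    (hmv 43 (by norm_num)) (hone 10 (by norm_num) (by norm_num))
    (hone 3 (by norm_num) (by norm_num)) (htwo 10 3 (by norm_num) (by norm_num)) ?_ ?_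
  · intro z hz
    rw [Cj_neg_ap, hown.o3 z hz, zz]
    congr 2
    ring
  · intro z hz
    rw [Cj_neg_ap, hown.o4 z hz, zz]
    congr 2
    ring
  · intro z hz
    rw [Cj_neg_ap, hown.o5 z hz, zz]
    congr 2
    ring
  · intro z hz
    rw [Cj_neg_ap, hown.o6 z hz, zz]
    congr 2
    ring
  · have : 2 * (P * 10) - P * 3 = P * 17 := by ring
    rw [this]
    exact htwo 10 17 (by norm_num) (by norm_num)
  · have : 2 * (P * 10) - P * 3 = P * 17 := by ring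
    rw [this]
    exact htwo 3 17 (by norm_num) (by norm_num)

theorem typeA (hA1 : ∀ y, y ∉ F → (∀ s ∈ Spec k, y ∉ Tr τ F s) → α y ∈ F)
    (hA2 : ∀ s ∈ Spec k, α '' Tr τ F s ⊆ F ∨ ∃ s' ∈ Spec k, α '' Tr τ F s = Tr τ F s')
    {H : Subgroup Hm} (hτ : τ ∈ H) (hα : α ∈ H) : Alt G F ≤ H := by
  set P : ℤ := 1000 ^ i with hP
  have hPpos : 0 < P := kpos i
  have hPk : P ≤ 1000 ^ k := pow_le_pow_right₀ (by norm_num) hi.le
  have hSb : ∀ s ∈ Spec k, 0 < s ∧ s ≤ 1000 ^ k * 100 := fun s hs => Spec_pos hs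
  have hK : (0 : ℤ) < 1000 ^ k := kpos k
  have hone : ∀ (n : ℤ), n ≠ 0 → |n| ≤ 100 → Disjoint F (Tr τ F (P * n)) := by
    intro n hn hn'
    refine hN _ (mul_ne_zero hPpos.ne' hn) ?_
    rw [abs_mul, abs_of_pos hPpos]
    have : P * |n| ≤ 1000 ^ k * 100 := mul_le_mul hPk hn' (abs_nonneg _) (by positivity)
    linarith
  have htwo : ∀ (m n : ℤ), m ≠ n → |n - m| ≤ 100 → Disjoint (Tr τ F (P * m)) (Tr τ F (P * n)) := by
    intro m n hmn hn'
    refine Tr_disj hN (fun h => hmn (mul_left_cancel₀ hPpos.ne' h)) ?_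
    rw [← mul_sub, abs_mul, abs_of_pos hPpos]
    have : P * |n - m| ≤ 1000 ^ k * 100 := mul_le_mul hPk hn' (abs_nonneg _) (by positivity)
    linarith
  have hSF : ∀ s ∈ Spec k, Disjoint (Tr τ F s) F := by
    intro s hs
    have h1 := hSb s hs
    refine (hN s h1.1.ne' ?_).symm
    rw [abs_of_pos h1.1]
    linarith
  -- the sets `E`
  have hEF : ∀ Ef : Finset ℤ, (∀ e ∈ Ef, |e| ≤ 100 ∧ e ∉ insert 0 AA) →
      ∀ n ∈ {n : ℤ | ∃ e ∈ Ef, n = P * e}, Disjoint (Tr τ F n) F := by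
    rintro Ef hEf _ ⟨e, he, rfl⟩
    exact (hone e (fun h => (hEf e he).2 (by rw [h]; exact Finset.mem_insert_self _ _))
      (hEf e he).1).symm
  have hES : ∀ Ef : Finset ℤ, (∀ e ∈ Ef, |e| ≤ 100 ∧ e ∉ insert 0 AA) →
      ∀ n ∈ {n : ℤ | ∃ e ∈ Ef, n = P * e}, ∀ s ∈ Spec k, Disjoint (Tr τ F n) (Tr τ F s) := by
    rintro Ef hEf _ ⟨e, he, rfl⟩ s hs
    have h1 := idx_not (k := k) (i := i) (hEf e he).1 (hEf e he).2
    refine Tr_disj hN (fun h => h1.1 (by rw [← hP, h]; exact hs)) ?_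
    have h2 := hSb s hs
    have h3 : |P * e| ≤ 1000 ^ k * 100 := by
      rw [abs_mul, abs_of_pos hPpos]
      exact mul_le_mul hPk (hEf e he).1 (abs_nonneg _) (by positivity)
    have h4 := abs_le.1 h3
    rw [abs_le]
    constructor <;> linarith
  -- the images of the special pieces
  have hgen : ∀ (p p' : ℤ), p ≠ 0 → |p| ≤ 100 → ∀ s ∈ Spec k,
      ¬ (P * p + s ∈ Spec k ∨ P * p + s = 0) → ∀ z ∈ Tr τ F s,
      (τ ^ (-(P * p')) * α * τ ^ (P * p) : Hm) z ∈ Tr τ F (P * (-p')) := by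
    intro p p' hp0 hp s hs hno z hz
    rw [not_or] at hno
    have h1 : (τ ^ (P * p) : Hm) z ∈ Tr τ F (P * p + s) := by
      rw [zpow_ap_Tr, add_sub_cancel_left]
      exact hz
    have h2 := hSb s hs
    have h3 : |P * p| ≤ 1000 ^ k * 100 := by
      rw [abs_mul, abs_of_pos hPpos]
      exact mul_le_mul hPk hp (abs_nonneg _) (by positivity)
    have h4 := abs_le.1 h3
    have h5 : (τ ^ (P * p) : Hm) z ∉ F := by
      refine Set.disjoint_right.1 (hN _ hno.2 ?_) h1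
      rw [abs_le]
      constructor <;> linarith
    have h6 : ∀ s' ∈ Spec k, (τ ^ (P * p) : Hm) z ∉ Tr τ F s' := by
      intro s' hs'
      have h7 := hSb s' hs'
      refine Set.disjoint_left.1 (Tr_disj hN (fun h => hno.1 (by rw [h]; exact hs')) ?_) h1
      rw [abs_le]
      constructor <;> linarith
    have h7 := hA1 _ h5 h6
    rw [mul_ap, mul_ap]
    have h8 : P * (-p') = -(P * p') := by ring
    rw [h8]
    exact ⟨_, h7, rfl⟩
  have hE1 : ∀ s ∈ Spec k, ∃ e ∈ {n : ℤ | ∃ e ∈ ({-4, 17} : Finset ℤ), n = P * e},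
      ∀ z ∈ Tr τ F s, (τ ^ (-(P * 4)) * α * τ ^ (P * 7) : Hm) z ∈ Tr τ F e := by
    intro s hs
    by_cases h : P * 7 + s ∈ Spec k ∨ P * 7 + s = 0
    · obtain ⟨a, ha, c, hc, h1, h2, h3⟩ := idx_sum (p := 7) (by norm_num) (by norm_num) hs h
      have h4 : c = 4 := by
        clear h1 h2
        revert a c
        decide
      subst h4
      refine ⟨P * 17, ⟨17, by decide, rfl⟩, ?_⟩
      rw [h1]
      rintro _ ⟨z, hz, rfl⟩
      rw [mul_ap, mul_ap]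
      change (τ ^ (-(P * 4)) : Hm) (α ((τ ^ (P * 7) : Hm) ((τ ^ (P * 4) : Hm) z))) ∈ _
      rw [zz]
      have h5 : P * 7 + P * 4 = P * 11 := by ring
      rw [h5, hown.o3 z hz, zz]
      have h6 : -(P * 4) + P * 21 = P * 17 := by ring
      rw [h6]
      exact ⟨z, hz, rfl⟩
    · exact ⟨P * (-4), ⟨-4, by decide, rfl⟩, hgen 7 4 (by norm_num) (by norm_num) s hs h⟩
  have hE2 : ∀ s ∈ Spec k, ∃ e ∈ {n : ℤ | ∃ e ∈ ({-10, 12, 24, 36} : Finset ℤ), n = P * e},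
      ∀ z ∈ Tr τ F s, (τ ^ (-(P * 10)) * α * τ ^ (P * 9) : Hm) z ∈ Tr τ F e := by
    intro s hs
    by_cases h : P * 9 + s ∈ Spec k ∨ P * 9 + s = 0
    · obtain ⟨a, ha, c, hc, h1, h2, h3⟩ := idx_sum (p := 9) (by norm_num) (by norm_num) hs h
      have h4 : c = 10 ∨ c = 22 ∨ c = 34 := by
        clear h1 h2
        revert a c
        decide
      rw [h1]
      rcases h4 with rfl | rfl | rfl
      · refine ⟨P * 12, ⟨12, by decide, rfl⟩, ?_⟩
        rintro _ ⟨z, hz, rfl⟩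
        rw [mul_ap, mul_ap]
        change (τ ^ (-(P * 10)) : Hm) (α ((τ ^ (P * 9) : Hm) ((τ ^ (P * 10) : Hm) z))) ∈ _
        rw [zz]
        have h5 : P * 9 + P * 10 = P * 19 := by ring
        rw [h5, hown.o4 z hz, zz]
        have h6 : -(P * 10) + P * 22 = P * 12 := by ring
        rw [h6]
        exact ⟨_, Supp_maps hx hz, rfl⟩
      · refine ⟨P * 24, ⟨24, by decide, rfl⟩, ?_⟩
        rintro _ ⟨z, hz, rfl⟩
        rw [mul_ap, mul_ap]
        change (τ ^ (-(P * 10)) : Hm) (α ((τ ^ (P * 9) : Hm) ((τ ^ (P * 22) : Hm) z))) ∈ _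
        rw [zz]
        have h5 : P * 9 + P * 22 = P * 31 := by ring
        rw [h5, hown.o5 z hz, zz]
        have h6 : -(P * 10) + P * 34 = P * 24 := by ring
        rw [h6]
        exact ⟨_, Supp_maps hy hz, rfl⟩
      · refine ⟨P * 36, ⟨36, by decide, rfl⟩, ?_⟩
        rintro _ ⟨z, hz, rfl⟩
        rw [mul_ap, mul_ap]
        change (τ ^ (-(P * 10)) : Hm) (α ((τ ^ (P * 9) : Hm) ((τ ^ (P * 34) : Hm) z))) ∈ _
        rw [zz]
        have h5 : P * 9 + P * 34 = P * 43 := by ring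
        rw [h5, hown.o6 z hz, zz]
        have h6 : -(P * 10) + P * 46 = P * 36 := by ring
        rw [h6]
        exact ⟨z, hz, rfl⟩
    · exact ⟨P * (-10), ⟨-10, by decide, rfl⟩, hgen 9 10 (by norm_num) (by norm_num) s hs h⟩
  have hf1 : ∀ e ∈ ({-4, 17} : Finset ℤ), |e| ≤ 100 ∧ e ∉ insert 0 AA := by decide
  have hf2 : ∀ e ∈ ({-10, 12, 24, 36} : Finset ℤ), |e| ≤ 100 ∧ e ∉ insert 0 AA := by decide
  obtain ⟨c1, hc1m, hc1a, hc1f⟩ := levelA hcomm hA1 hA2 (P * 7) (P * 4) hown.o1 _ hE1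
    (hEF _ hf1) (hES _ hf1) hSF
  obtain ⟨c2, hc2m, hc2a, hc2f⟩ := levelA hcomm hA1 hA2 (P * 9) (P * 10) hown.o2 _ hE2
    (hEF _ hf2) (hES _ hf2) hSF
  -- supports
  have hs1 : ∀ y, (∀ u ∈ DD k i {-4, 17}, y ∉ Tr τ F u) → c1 y = y := by
    intro y hy
    apply hc1f
    · have := hy 0 (Or.inr (Or.inl rfl))
      rwa [Tr_zero] at this
    · exact fun s hs => hy s (Or.inl hs)
    · exact fun e he => hy e (Or.inr (Or.inr he))
  have hs2 : ∀ y, (∀ u ∈ DD k i {-10, 12, 24, 36}, y ∉ Tr τ F u) → c2 y = y := by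
    intro y hy
    apply hc2f
    · have := hy 0 (Or.inr (Or.inl rfl))
      rwa [Tr_zero] at this
    · exact fun s hs => hy s (Or.inl hs)
    · exact fun e he => hy e (Or.inr (Or.inr he))
  have hmv : ∀ m : ℤ, (m = 10 ∨ m = 22 ∨ m = 34) → ∀ y, y ∉ F →
      Cj τ (-(P * 4)) c1 y = y ∨ Cj τ (-(P * m)) c2 y = y := by
    intro m hm
    refine two_move hN hs1 hs2 ?_ ?_
    · intro u hu v hv huv
      have h1 : u - v = P * (4 - m) := by
        have : u - v = P * 4 - P * m := by linarith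
        rw [this]; ring
      obtain ⟨a, ha, c, hc, h2, h3, h4⟩ := DD_diff (fun e he => (hf1 e he).1)
        (fun e he => (hf2 e he).1) hu hv
        (by rcases hm with rfl | rfl | rfl <;> norm_num)
        (by rcases hm with rfl | rfl | rfl <;> norm_num) h1
      have h5 : a = 4 := by
        rcases hm with rfl | rfl | rfl
        · clear h2 h3; revert a c; decide
        · clear h2 h3; revert a c; decide
        · clear h2 h3; revert a c; decide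
      rw [h2, h5]
    · intro u hu v hv
      have h1 := abs_le.1 (DD_bd hi (fun e he => (hf1 e he).1) hu)
      have h2 := abs_le.1 (DD_bd hi (fun e he => (hf2 e he).1) hv)
      rw [abs_le]
      rcases hm with rfl | rfl | rfl <;> constructor <;> nlinarith
  -- the special pieces in the image
  have hm : ∀ a ∈ AA, P * a ∈ Spec k := fun a ha => Spec_mem hi ha
  have g4 : ∀ z ∈ Tr τ F (P * 4), c1 z = (τ ^ (-(P * 4)) * α * τ ^ (P * 7) : Hm) z := by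
    refine hc1a _ (hm 4 (by decide)) ⟨P * 7, hm 7 (by decide), ?_⟩
    rw [Tr, Tr, ← Set.image_comp]
    exact Set.image_congr fun z hz => hown.o1 z hz
  have g10 : ∀ z ∈ Tr τ F (P * 10), c2 z = (τ ^ (-(P * 10)) * α * τ ^ (P * 9) : Hm) z := by
    refine hc2a _ (hm 10 (by decide)) ⟨P * 9, hm 9 (by decide), ?_⟩
    rw [Tr, Tr, ← Set.image_comp]
    exact Set.image_congr fun z hz => hown.o2 z hz
  have g22 : ∀ z ∈ Tr τ F (P * 22), c2 z = (τ ^ (-(P * 10)) * α * τ ^ (P * 9) : Hm) z := by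
    refine hc2a _ (hm 22 (by decide)) ⟨P * 19, hm 19 (by decide), ?_⟩
    have h1 : α '' Tr τ F (P * 19) = (τ ^ (P * 22) : Hm) '' (x '' F) := by
      rw [Tr, ← Set.image_comp, ← Set.image_comp]
      exact Set.image_congr fun z hz => hown.o4 z hz
    rw [h1, Supp_image hx, Tr]
  have g34 : ∀ z ∈ Tr τ F (P * 34), c2 z = (τ ^ (-(P * 10)) * α * τ ^ (P * 9) : Hm) z := by
    refine hc2a _ (hm 34 (by decide)) ⟨P * 31, hm 31 (by decide), ?_⟩
    have h1 : α '' Tr τ F (P * 31) = (τ ^ (P * 34) : Hm) '' (y '' F) := by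
      rw [Tr, ← Set.image_comp, ← Set.image_comp]
      exact Set.image_congr fun z hz => hown.o5 z hz
    rw [h1, Supp_image hy, Tr]
  refine core hv hs hperf hcomm hF hx hy hxy hτ (b1 := P * 13) (b2 := P * 2)
    (c1 := Cj τ (-(P * 4)) c1) (c2 := Cj τ (-(P * 10)) c2) (c3 := Cj τ (-(P * 22)) c2)
    (c4 := Cj τ (-(P * 34)) c2) (Cj_mem hτ _ (hc1m H hτ hα)) (Cj_mem hτ _ (hc2m H hτ hα))
    (Cj_mem hτ _ (hc2m H hτ hα)) (Cj_mem hτ _ (hc2m H hτ hα)) ?_ ?_ ?_ ?_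
    (hmv 10 (by norm_num)) (hmv 22 (by norm_num))
    (hmv 34 (by norm_num)) (hone 13 (by norm_num) (by norm_num))
    (hone 2 (by norm_num) (by norm_num)) (htwo 13 2 (by norm_num) (by norm_num)) ?_ ?_
  · intro z hz
    rw [Cj_neg_ap, g4 _ ⟨z, hz, rfl⟩, mul_ap, mul_ap, zz (P * 7)]
    have h5 : P * 7 + P * 4 = P * 11 := by ring
    rw [h5, hown.o3 z hz, zz, zz]
    congr 2
    ring
  · intro z hz
    rw [Cj_neg_ap, g10 _ ⟨z, hz, rfl⟩, mul_ap, mul_ap, zz (P * 9)]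
    have h5 : P * 9 + P * 10 = P * 19 := by ring
    rw [h5, hown.o4 z hz, zz, zz]
    congr 2
    ring
  · intro z hz
    rw [Cj_neg_ap, g22 _ ⟨z, hz, rfl⟩, mul_ap, mul_ap, zz (P * 9)]
    have h5 : P * 9 + P * 22 = P * 31 := by ring
    rw [h5, hown.o5 z hz, zz, zz]
    congr 2
    ring
  · intro z hz
    rw [Cj_neg_ap, g34 _ ⟨z, hz, rfl⟩, mul_ap, mul_ap, zz (P * 9)]
    have h5 : P * 9 + P * 34 = P * 43 := by ring
    rw [h5, hown.o6 z hz, zz, zz]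
    congr 2
    ring
  · have : 2 * (P * 13) - P * 2 = P * 24 := by ring
    rw [this]
    exact htwo 13 24 (by norm_num) (by norm_num)
  · have : 2 * (P * 13) - P * 2 = P * 24 := by ring
    rw [this]
    exact htwo 2 24 (by norm_num) (by norm_num)

end

end Pool.Agent.H342VG
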